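import Mathlib
import Pool.Agent.Work.MP_3d425c_gt.Cy.U2

-- merged part: Pool.Agent.Work.MP_3d425c_gt.Gl.Lex
section
/-! Orders on subsets of a group, slopes, and lexicographic refinements of cuts. -/

namespace Pool.Agent.Work.MP_3d425c_gt.Gl
open Set

variable {G : Type*}

/-- a strict total order on the set `Y` -/
structure Lin (Y : Set G) (r : G → G → Prop) : Prop where
  irr : ∀ x ∈ Y, ¬ r x x
  trans : ∀ x ∈ Y, ∀ y ∈ Y, ∀ z ∈ Y, r x y → r y z → r x z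
  tot : ∀ x ∈ Y, ∀ y ∈ Y, x ≠ y → r x y ∨ r y x

/-- a lower set of `X` -/
def Low (X : Set G) (r : G → G → Prop) (K : Set G) : Prop :=
  K ⊆ X ∧ ∀ x ∈ K, ∀ y ∈ X, r y x → y ∈ K

/-- compare the keys first -/
def lex (κ : G → Set G) (t : G → G → Prop) (u v : G) : Prop := κ u ⊂ κ v ∨ (κ u = κ v ∧ t u v)

/-- `Y` comes first -/
def sum (Y : Set G) (r r' : G → G → Prop) (u v : G) : Prop :=
  (u ∈ Y ∧ v ∈ Y ∧ r u v) ∨ (u ∈ Y ∧ v ∉ Y) ∨ (u ∉ Y ∧ v ∉ Y ∧ r' u v)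

/-- two relations agree on `Y` -/
def Agr (Y : Set G) (r r' : G → G → Prop) : Prop := ∀ x ∈ Y, ∀ y ∈ Y, r x y ↔ r' x y

section
variable {X Y Z K K' : Set G} {r r' t : G → G → Prop} {κ : G → Set G}

theorem Lin.asymm (h : Lin Y r) {x y : G} (hx : x ∈ Y) (hy : y ∈ Y) (a : r x y) : ¬ r y x :=
  fun b => h.irr x hx (h.trans x hx y hy x hx a b)

theorem Lin.mono (h : Lin Y r) (hX : X ⊆ Y) : Lin X r :=
  ⟨fun x hx => h.irr x (hX hx), fun x hx y hy z hz => h.trans x (hX hx) y (hX hy) z (hX hz),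
    fun x hx y hy => h.tot x (hX hx) y (hX hy)⟩

theorem Lin.rev (h : Lin Y r) : Lin Y fun x y => r y x :=
  ⟨h.irr, fun x hx y hy z hz a b => h.trans z hz y hy x hx b a,
    fun x hx y hy n => (h.tot x hx y hy n).symm⟩

theorem Lin.agr (h : Lin Y r) (h' : Lin Y r') (k : ∀ x ∈ Y, ∀ y ∈ Y, r x y → r' x y) :
    Agr Y r r' := fun x hx y hy => ⟨k x hx y hy, fun a => by
  have n : x ≠ y := fun e => h'.irr x hx (e ▸ a)
  exact (h.tot x hx y hy n).resolve_right fun b => h'.asymm hx hy a (k y hy x hx b)⟩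

theorem Low.lt (h : Lin X r) (hK : Low X r K) {x y : G} (hx : x ∈ K) (hy : y ∈ X) (n : y ∉ K) :
    r x y :=
  (h.tot x (hK.1 hx) y hy fun e => n (e ▸ hx)).resolve_right fun b => n (hK.2 x hx y hy b)

theorem Low.total (h : Lin X r) (hK : Low X r K) (hK' : Low X r K') : K ⊆ K' ∨ K' ⊆ K := by
  by_contra n
  obtain ⟨⟨x, hx, nx⟩, y, hy, ny⟩ := (not_or.1 n).imp not_subset.1 not_subset.1
  exact ny (hK.2 x hx y (hK'.1 hy) (hK'.lt h hy (hK.1 hx) nx))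

theorem lex_lin (hκ : ∀ u ∈ Y, ∀ v ∈ Y, κ u ⊆ κ v ∨ κ v ⊆ κ u) (ht : Lin Y t) :
    Lin Y (lex κ t) := by
  refine ⟨fun x hx a => a.elim (lt_irrefl _) fun b => ht.irr x hx b.2, ?_, ?_⟩
  · rintro x hx y hy z hz (a | ⟨a, a'⟩) (b | ⟨b, b'⟩)
    · exact .inl (a.trans b)
    · exact .inl (b ▸ a)
    · exact .inl (a ▸ b)
    · exact .inr ⟨a.trans b, ht.trans x hx y hy z hz a' b'⟩
  · intro x hx y hy n
    by_cases e : κ x = κ y
    · exact (ht.tot x hx y hy n).imp (fun a => .inr ⟨e, a⟩) fun a => .inr ⟨e.symm, a⟩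
    · exact (hκ x hx y hy).imp (fun a => .inl (a.ssubset_of_ne e))
        fun a => .inl (a.ssubset_of_ne (Ne.symm e))

theorem lex_of {u v : G} (a : κ u ⊆ κ v) (b : κ u = κ v → t u v) : lex κ t u v := by
  by_cases e : κ u = κ v
  · exact .inr ⟨e, b e⟩
  · exact .inl (a.ssubset_of_ne e)

theorem sum_lin (h : Lin Y r) (h' : Lin Z r') : Lin (Y ∪ Z) (sum Y r r') := by
  refine ⟨?_, ?_, ?_⟩
  · rintro x hx (a | a | a)
    · exact h.irr x a.1 a.2.2
    · exact a.2 a.1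
    · exact h'.irr x (hx.resolve_left a.1) a.2.2
  · rintro x hx y hy z hz (a | a | a) (b | b | b)
    · exact .inl ⟨a.1, b.2.1, h.trans x a.1 y b.1 z b.2.1 a.2.2 b.2.2⟩
    · exact .inr (.inl ⟨a.1, b.2⟩)
    · exact absurd a.2.1 b.1
    · exact absurd b.1 a.2
    · exact absurd b.1 a.2
    · exact .inr (.inl ⟨a.1, b.2.1⟩)
    · exact absurd b.1 a.2.1
    · exact absurd b.1 a.2.1
    · exact .inr (.inr ⟨a.1, b.2.1, h'.trans x (hx.resolve_left a.1) y (hy.resolve_left b.1) z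
        (hz.resolve_left b.2.1) a.2.2 b.2.2⟩)
  · intro x hx y hy n
    by_cases a : x ∈ Y <;> by_cases b : y ∈ Y
    · exact (h.tot x a y b n).imp (fun k => .inl ⟨a, b, k⟩) fun k => .inl ⟨b, a, k⟩
    · exact .inl (.inr (.inl ⟨a, b⟩))
    · exact .inr (.inr (.inl ⟨b, a⟩))
    · exact (h'.tot x (hx.resolve_left a) y (hy.resolve_left b) n).imp
        (fun k => .inr (.inr ⟨a, b, k⟩)) fun k => .inr (.inr ⟨b, a, k⟩)

theorem sum_in {u v : G} (a : u ∈ Y) (b : v ∈ Y) : sum Y r r' u v ↔ r u v := by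
  simp [sum, a, b]

theorem sum_out {u v : G} (a : u ∉ Y) (b : v ∉ Y) : sum Y r r' u v ↔ r' u v := by
  simp [sum, a, b]

end

variable [Group G]

/-- `Y` is invariant under left multiplication by `H` -/
def Cl (H : Subgroup G) (Y : Set G) : Prop := ∀ h ∈ H, ∀ x ∈ Y, h * x ∈ Y

/-- the relation is invariant under left multiplication by `H` -/
def Inv (H : Subgroup G) (Y : Set G) (r : G → G → Prop) : Prop :=
  ∀ h ∈ H, ∀ x ∈ Y, ∀ y ∈ Y, r x y → r (h * x) (h * y)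

/-- a real character of an abelian subgroup -/
structure Sl (P : Subgroup G) (s : G → ℝ) : Prop where
  comm : ∀ p ∈ P, ∀ q ∈ P, p * q = q * p
  add : ∀ p ∈ P, ∀ q ∈ P, s (p * q) = s p + s q

/-- all elements of `P` with positive `s` move a point of `Y` to the same side -/
def Det (P : Subgroup G) (s : G → ℝ) (Y : Set G) (r : G → G → Prop) : Prop :=
  ∀ x ∈ Y, ∀ p ∈ P, ∀ q ∈ P, 0 < s p → 0 < s q → r x (p * x) → r x (q * x)

variable {X Y Z : Set G} {r r' t : G → G → Prop} {κ : G → Set G} {H P : Subgroup G} {s : G → ℝ}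

theorem Cl.self (H : Subgroup G) : Cl H H := fun _ a _ b => H.mul_mem a b

theorem Cl.mono (h : Cl H Y) (k : P ≤ H) : Cl P Y := fun p hp => h p (k hp)

theorem Cl.iff (h : Cl H Y) {g x : G} (hg : g ∈ H) : g * x ∈ Y ↔ x ∈ Y :=
  ⟨fun a => by simpa using h _ (H.inv_mem hg) _ a, h g hg x⟩

theorem Cl.union (h : Cl H Y) (h' : Cl H Z) : Cl H (Y ∪ Z) := fun g hg x hx =>
  hx.imp (h g hg x) (h' g hg x)

theorem Inv.mono (h : Inv H Y r) (k : P ≤ H) (k' : X ⊆ Y) : Inv P X r :=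
  fun p hp x hx y hy => h p (k hp) x (k' hx) y (k' hy)

theorem Inv.iff (h : Inv H Y r) (c : Cl H Y) {g x y : G} (hg : g ∈ H) (hx : x ∈ Y) (hy : y ∈ Y) :
    r (g * x) (g * y) ↔ r x y :=
  ⟨fun a => by simpa using h _ (H.inv_mem hg) _ (c g hg x hx) _ (c g hg y hy) a, h g hg x hx y hy⟩

theorem Inv.congr (h : Inv H Y r) (c : Cl H Y) (a : Agr Y r r') : Inv H Y r' :=
  fun g hg x hx y hy k => (a _ (c g hg x hx) _ (c g hg y hy)).1 (h g hg x hx y hy ((a x hx y hy).2 k))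

theorem Det.congr (h : Det P s Y r) (c : Cl P Y) (a : Agr Y r r') : Det P s Y r' :=
  fun x hx p hp q hq sp sq k =>
    (a _ hx _ (c q hq x hx)).1 (h x hx p hp q hq sp sq ((a _ hx _ (c p hp x hx)).2 k))

theorem Det.union (h : Det P s Y r) (h' : Det P s Z r) : Det P s (Y ∪ Z) r :=
  fun x hx => hx.elim (h x) (h' x)

theorem Det.mono (h : Det P s Y r) (k : X ⊆ Y) : Det P s X r := fun x hx => h x (k hx)

theorem Sl.one (h : Sl P s) : s 1 = 0 := by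
  have := h.add 1 P.one_mem 1 P.one_mem
  rw [one_mul] at this
  linarith

theorem Sl.inv (h : Sl P s) {p : G} (hp : p ∈ P) : s p⁻¹ = - s p := by
  have := h.add p hp _ (P.inv_mem hp)
  rw [mul_inv_cancel, h.one] at this
  linarith

theorem Sl.pow (h : Sl P s) {p : G} (hp : p ∈ P) (n : ℕ) : s (p ^ n) = n * s p := by
  induction n with
  | zero => simp [h.one]
  | succ n ih => rw [pow_succ, h.add _ (P.pow_mem hp n) p hp, ih]; push_cast; ring

theorem Sl.zpow (h : Sl P s) {p : G} (hp : p ∈ P) (n : ℤ) : s (p ^ n) = n * s p := by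
  obtain ⟨m, rfl | rfl⟩ := n.eq_nat_or_neg
  · rw [zpow_natCast, h.pow hp]; simp
  · rw [zpow_neg, zpow_natCast, h.inv (P.pow_mem hp m), h.pow hp]; simp

theorem Sl.ne (h : Sl P s) {p : G} (sp : s p ≠ 0) (x : G) : x ≠ p * x := fun e => by
  have : p = 1 := by simpa using e.symm
  exact sp (this ▸ h.one)

theorem Det.rev (h : Det P s Y r) (l : Lin Y r) (c : Cl P Y) (S : Sl P s) :
    Det P s Y fun x y => r y x := fun x hx p hp q hq sp sq k =>
  (l.tot x hx _ (c q hq x hx) (S.ne sq.ne' x)).resolve_left fun a =>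
    l.asymm hx (c p hp x hx) (h x hx q hq p hp sq sp a) k

theorem Det.neg (h : Det P s Y r) (l : Lin Y r) (c : Cl P Y) (i : Inv P Y r) (S : Sl P s) :
    Det P (fun g => - s g) Y r := fun x hx p hp q hq sp sq k => by
  have p' := P.inv_mem hp
  have q' := P.inv_mem hq
  have a : r (p⁻¹ * x) x := by simpa using i _ p' _ hx _ (c p hp x hx) k
  have b : r (q⁻¹ * x) x := h.rev l c S x hx _ p' _ q' (by rwa [S.inv hp]) (by rwa [S.inv hq]) a
  simpa using i q hq _ (c _ q' x hx) _ hx b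

theorem sum_inv (c : Cl H Y) (h : Inv H Y r) (h' : Inv H Z r') : Inv H (Y ∪ Z) (sum Y r r') := by
  rintro g hg x hx y hy (a | a | a)
  · exact .inl ⟨c g hg _ a.1, c g hg _ a.2.1, h g hg _ a.1 _ a.2.1 a.2.2⟩
  · exact .inr (.inl ⟨c g hg _ a.1, fun k => a.2 ((c.iff hg).1 k)⟩)
  · exact .inr (.inr ⟨fun k => a.1 ((c.iff hg).1 k), fun k => a.2.1 ((c.iff hg).1 k),
      h' g hg _ (hx.resolve_left a.1) _ (hy.resolve_left a.2.1) a.2.2⟩)

theorem sum_det (c : Cl P Y) (h : Det P s Y r) (h' : Det P s Z r') :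
    Det P s (Y ∪ Z) (sum Y r r') := by
  intro x hx p hp q hq sp sq
  by_cases a : x ∈ Y
  · rw [sum_in a (c p hp x a), sum_in a (c q hq x a)]
    exact h x a p hp q hq sp sq
  · rw [sum_out a fun k => a ((c.iff hp).1 k), sum_out a fun k => a ((c.iff hq).1 k)]
    exact h' x (hx.resolve_left a) p hp q hq sp sq

/-- the keys are equivariant -/
def Eqv (H : Subgroup G) (Y : Set G) (κ : G → Set G) : Prop :=
  ∀ h ∈ H, ∀ u ∈ Y, ∀ x, x ∈ κ (h * u) ↔ h⁻¹ * x ∈ κ u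

theorem Eqv.sub (e : Eqv H Y κ) {g u v : G} (hg : g ∈ H) (hu : u ∈ Y) (hv : v ∈ Y) :
    κ (g * u) ⊆ κ (g * v) ↔ κ u ⊆ κ v :=
  ⟨fun a x hx => by
    have := (e g hg v hv (g * x)).1 (a ((e g hg u hu _).2 (by simpa using hx)))
    simpa using this, fun a x hx => (e g hg v hv x).2 (a ((e g hg u hu x).1 hx))⟩

theorem Eqv.ssub (e : Eqv H Y κ) {g u v : G} (hg : g ∈ H) (hu : u ∈ Y) (hv : v ∈ Y)
    (a : κ u ⊂ κ v) : κ (g * u) ⊂ κ (g * v) :=
  ⟨(e.sub hg hu hv).2 a.1, fun b => a.2 ((e.sub hg hv hu).1 b)⟩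

theorem Eqv.eq (e : Eqv H Y κ) {g u v : G} (hg : g ∈ H) (hu : u ∈ Y) (hv : v ∈ Y)
    (a : κ u = κ v) : κ (g * u) = κ (g * v) :=
  ((e.sub hg hu hv).2 a.le).antisymm ((e.sub hg hv hu).2 a.ge)

theorem lex_inv (e : Eqv H Y κ) (i : Inv H Y t) : Inv H Y (lex κ t) := fun g hg x hx y hy a =>
  a.imp (e.ssub hg hx hy) fun b => ⟨e.eq hg hx hy b.1, i g hg x hx y hy b.2⟩

theorem lex_det (S : Sl P s) (l : Lin X r) (c : Cl P X) (i : Inv P X r) (d : Det P s X r)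
    (c' : Cl P Y) (lo : ∀ u ∈ Y, Low X r (κ u)) (e : Eqv P Y κ) (dt : Det P s Y t) :
    Det P s Y (lex κ t) := by
  intro u hu
  have lu := lo u hu
  have weak : ∀ p ∈ P, ∀ q ∈ P, 0 < s p → 0 < s q → κ u ⊂ κ (p * u) → ¬ κ (q * u) ⊂ κ u := by
    intro p hp q hq sp sq a b
    obtain ⟨w, w1, w2⟩ := exists_of_ssubset a
    obtain ⟨v, v1, v2⟩ := exists_of_ssubset b
    have q' := P.inv_mem hq
    rw [e p hp u hu] at w1
    rw [e q hq u hu] at v2
    obtain ⟨y, rfl⟩ : ∃ y, w = p * y := ⟨p⁻¹ * w, by simp⟩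
    rw [inv_mul_cancel_left] at w1
    have yX := lu.1 w1
    have vX := lu.1 v1
    have a1 : r y (q * y) := d y yX p hp q hq sp sq (lu.lt l w1 (c p hp y yX) w2)
    have a2 : r (q⁻¹ * y) y := by simpa using i _ q' _ yX _ (c q hq y yX) a1
    have a3 : ¬ r v (p * v) := fun k => by
      have k1 := d v vX p hp q hq sp sq k
      have k2 : r (q⁻¹ * v) v := by simpa using i _ q' _ vX _ (c q hq v vX) k1
      exact v2 (lu.2 v v1 _ (c _ q' v vX) k2)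
    have a4 : p * v ∈ κ u := by
      by_contra k
      exact a3 (lu.lt l v1 (c p hp v vX) k)
    by_cases n : y = v
    · exact w2 (n ▸ a4)
    rcases l.tot y yX v vX n with k | k
    · exact w2 (lu.2 _ a4 _ (c p hp y yX) (i p hp y yX v vX k))
    · exact v2 (lu.2 _ (lu.2 y w1 _ (c _ q' y yX) a2) _ (c _ q' v vX) (i _ q' v vX y yX k))
  have fix : ∀ p ∈ P, ∀ q ∈ P, 0 < s p → 0 < s q → κ u = κ (p * u) → κ u = κ (q * u) := by
    intro p hp q hq sp sq a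
    have q' := P.inv_mem hq
    have a1 : ∀ n : ℕ, κ u = κ (p ^ n * u) := fun n => by
      induction n with
      | zero => simp
      | succ n ih =>
        rw [pow_succ', mul_assoc]
        exact a.trans (e.eq hp hu (c' _ (P.pow_mem hp n) u hu) ih)
    obtain ⟨n, hn⟩ := exists_nat_gt (s q / s p)
    have pn := P.pow_mem hp n
    have m := P.mul_mem q' pn
    have sm : 0 < s (q⁻¹ * p ^ n) := by
      rw [S.add _ q' _ pn, S.inv hq, S.pow hp]
      linarith [(div_lt_iff₀ sp).1 hn]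
    have a2 : κ (q⁻¹ * p ^ n * u) = κ (q⁻¹ * u) := by
      rw [mul_assoc]
      exact (e.eq q' hu (c' _ pn u hu) (a1 n)).symm
    have qu := c' q hq u hu
    by_contra ne
    rcases Low.total l lu (lo _ qu) with k | k
    · refine weak q hq _ m sq sm (k.ssubset_of_ne ne) ?_
      rw [a2]
      simpa using e.ssub q' hu qu (k.ssubset_of_ne ne)
    · refine weak _ m q hq sm sq ?_ (k.ssubset_of_ne (Ne.symm ne))
      rw [a2]
      simpa using e.ssub q' qu hu (k.ssubset_of_ne (Ne.symm ne))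
  rintro p hp q hq sp sq (a | ⟨a, b⟩)
  · have ne : κ u ≠ κ (q * u) := fun k => a.ne (fix q hq p hp sq sp k)
    rcases Low.total l lu (lo _ (c' q hq u hu)) with k | k
    · exact .inl (k.ssubset_of_ne ne)
    · exact absurd (k.ssubset_of_ne ne.symm) (weak p hp q hq sp sq a)
  · exact .inr ⟨fix p hp q hq sp sq a, dt u hu p hp q hq sp sq b⟩

end Pool.Agent.Work.MP_3d425c_gt.Gl
end

-- merged part: Pool.Agent.Work.MP_3d425c_gt.Gl.Star
section
/-! Good orders, the flip of the sign on the kernel of a slope, adding one orbit, merging. -/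

namespace Pool.Agent.Work.MP_3d425c_gt.Gl
open Set

variable {G : Type*} [Group G]

/-- a left order on `A` all of whose conjugates detect all the slopes of the family `F` -/
def Ord (A : Subgroup G) (F : Set (Subgroup G × (G → ℝ))) (r : G → G → Prop) : Prop :=
  Lin A r ∧ Inv A A r ∧ ∀ f ∈ F, Det f.1 f.2 A r

variable {A C : Subgroup G} {F : Set (Subgroup G × (G → ℝ))} {o r r' ρ : G → G → Prop}
  {s : G → ℝ} {X Y W : Set G}

theorem Ord.rev (hF : ∀ f ∈ F, f.1 ≤ A ∧ Sl f.1 f.2) (h : Ord A F o) :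
    Ord A F fun x y => o y x :=
  ⟨h.1.rev, fun g hg x hx y hy => h.2.1 g hg y hy x hx, fun f hf =>
    (h.2.2 f hf).rev h.1 ((Cl.self A).mono (hF f hf).1) (hF f hf).2⟩

theorem pos_pow (l : Lin A o) (i : Inv A A o) {g : G} (hg : g ∈ A) (a : o 1 g) (n : ℕ) :
    o 1 (g ^ (n + 1)) := by
  induction n with
  | zero => simpa using a
  | succ n ih =>
    have := i g hg 1 A.one_mem _ (A.pow_mem hg _) ih
    rw [mul_one, ← pow_succ'] at this
    exact l.trans 1 A.one_mem g hg _ (A.pow_mem hg _) a this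

theorem not_pos_inv (l : Lin A o) (i : Inv A A o) {g : G} (hg : g ∈ A) (a : o 1 g) :
    ¬ o 1 g⁻¹ := fun b => by
  have := i g hg 1 A.one_mem _ (A.inv_mem hg) b
  rw [mul_one, mul_inv_cancel] at this
  exact l.asymm A.one_mem hg a this

theorem flip (hF : ∀ f ∈ F, f.1 ≤ A ∧ Sl f.1 f.2) (hs : (C, s) ∈ F) (h : Ord A F o) {p β : G}
    (hp : p ∈ C) (sp : 0 < s p) (op : o 1 p) (hβ : β ∈ C) (sβ : s β = 0) (oβ : o 1 β) :
    ∃ o', Ord A F o' ∧ o' 1 p ∧ o' β 1 := by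
  obtain ⟨l, i, d⟩ := h
  have CA : C ≤ A := (hF _ hs).1
  have S : Sl C s := (hF _ hs).2
  have bn : ∀ n : ℤ, β ^ n ∈ A := fun n => A.zpow_mem (CA hβ) n
  let κ : G → Set G := fun u => {x | x ∈ A ∧ ∃ n : ℤ, o x (u * β ^ n)}
  have lo : ∀ u ∈ A, Low A o (κ u) := fun u hu => ⟨fun x hx => hx.1, fun x hx y hy a =>
    ⟨hy, hx.2.imp fun n b => l.trans y hy x hx.1 _ (A.mul_mem hu (bn n)) a b⟩⟩
  have e : Eqv A A κ := fun g hg u hu x => by
    have g' := A.inv_mem hg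
    refine ⟨fun ⟨a, n, b⟩ => ⟨A.mul_mem g' a, n, ?_⟩, fun ⟨a, n, b⟩ => ⟨by simpa using A.mul_mem hg a, n, ?_⟩⟩
    · simpa [mul_assoc] using i _ g' _ a _ (A.mul_mem (A.mul_mem hg hu) (bn n)) b
    · simpa [mul_assoc] using i _ hg _ a _ (A.mul_mem hu (bn n)) b
  have R := Ord.rev hF ⟨l, i, d⟩
  have lt : ∀ n : ℤ, o (β ^ n) p := fun n => by
    have m := C.mul_mem (C.zpow_mem hβ (-n)) hp
    have : o 1 (β ^ (-n) * p * 1) := d _ hs 1 A.one_mem p hp _ m sp (by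
      change 0 < s _
      rw [S.add _ (C.zpow_mem hβ _) _ hp, S.zpow hβ, sβ]; simpa using sp) (by simpa using op)
    simpa using i _ (bn n) _ A.one_mem _ (A.mul_mem (CA m) A.one_mem) this
  refine ⟨lex κ fun x y => o y x, ⟨lex_lin (fun u hu v hv => Low.total l (lo u hu) (lo v hv)) R.1,
    lex_inv e R.2.1, fun f hf => ?_⟩, .inl ⟨?_, fun k => ?_⟩, .inr ⟨?_, oβ⟩⟩
  · have c := (Cl.self A).mono (hF f hf).1
    exact lex_det (hF f hf).2 l c (i.mono (hF f hf).1 le_rfl) (d f hf) c lo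
      (fun g hg => e g ((hF f hf).1 hg)) (R.2.2 f hf)
  · rintro x ⟨a, n, b⟩
    rw [one_mul] at b
    exact ⟨a, 0, by simpa using l.trans x a _ (bn n) p (CA hp) b (lt n)⟩
  · obtain ⟨-, n, b⟩ := k (a := p) ⟨CA hp, 1, by
      simpa using i p (CA hp) 1 A.one_mem β (CA hβ) oβ⟩
    rw [one_mul] at b
    exact l.asymm (bn n) (CA hp) (lt n) b
  · ext x
    refine and_congr_right fun _ => ⟨fun ⟨n, b⟩ => ⟨1 + n, ?_⟩, fun ⟨n, b⟩ => ⟨n - 1, ?_⟩⟩
    · rwa [one_mul, zpow_one_add]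
    · rwa [← zpow_one_add, add_sub_cancel, ← one_mul (β ^ n)]

theorem agr_of_signs (S : Sl C s) (h : Ord C {(C, s)} o) (h' : Ord C {(C, s)} ρ) {p β : G}
    (hp : p ∈ C) (sp : 0 < s p) (op : o 1 p) (ρp : ρ 1 p) (hβ : β ∈ C)
    (hk : ∀ c ∈ C, s c = 0 → ∃ n : ℤ, c = β ^ n) (k : β = 1 ∨ (o 1 β ∧ ρ 1 β)) : Agr C o ρ := by
  refine h.1.agr h'.1 fun x hx y hy a => ?_
  have m := C.mul_mem (C.inv_mem hx) hy
  have a' : o 1 (x⁻¹ * y) := by simpa using h.2.1 _ (C.inv_mem hx) x hx y hy a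
  suffices b : ρ 1 (x⁻¹ * y) by simpa using h'.2.1 x hx 1 C.one_mem _ m b
  generalize x⁻¹ * y = g at m a'
  rcases lt_trichotomy 0 (s g) with b | b | b
  · simpa using h'.2.2 _ rfl 1 C.one_mem p hp g m sp b (by simpa using ρp)
  · obtain ⟨n, rfl⟩ := hk g m b.symm
    rcases k with rfl | k
    · exact absurd (by simpa using a') (h.1.irr 1 C.one_mem)
    obtain ⟨n, rfl | rfl⟩ := n.eq_nat_or_neg
    · rcases n with _ | n
      · exact absurd (by simpa using a') (h.1.irr 1 C.one_mem)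
      · rw [zpow_natCast]
        exact pos_pow h'.1 h'.2.1 hβ k.2 n
    · rcases n with _ | n
      · exact absurd (by simpa using a') (h.1.irr 1 C.one_mem)
      · rw [zpow_neg, zpow_natCast] at a'
        exact absurd a' (not_pos_inv h.1 h.2.1 (C.pow_mem hβ _) (pos_pow h.1 h.2.1 hβ k.1 n))
  · refine absurd ?_ (not_pos_inv h.1 h.2.1 m a')
    simpa using h.2.2 _ rfl 1 C.one_mem p hp _ (C.inv_mem m) sp
      (by change 0 < s _; rw [S.inv m]; linarith) (by simpa using op)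

theorem Ord.res (hF : ∀ f ∈ F, f.1 ≤ A ∧ Sl f.1 f.2) (hs : (C, s) ∈ F) (h : Ord A F o) :
    Ord C {(C, s)} o :=
  ⟨h.1.mono (hF _ hs).1, h.2.1.mono (hF _ hs).1 (hF _ hs).1, fun _ hf => by
    obtain rfl := hf
    exact (h.2.2 _ hs).mono (hF _ hs).1⟩

theorem sign (hF : ∀ f ∈ F, f.1 ≤ A ∧ Sl f.1 f.2) (hs : (C, s) ∈ F) (h : Ord A F o) {p α : G}
    (hp : p ∈ C) (sp : 0 < s p) (hα : α ∈ C) (sα : s α = 0)
    (hk : ∀ c ∈ C, s c = 0 → ∃ n : ℤ, c = α ^ n) (hρ : Ord C {(C, s)} ρ) :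
    ∃ o', Ord A F o' ∧ Agr C o' ρ := by
  have CA : C ≤ A := (hF _ hs).1
  have S : Sl C s := (hF _ hs).2
  have p1 : (1 : G) ≠ p := by simpa using S.ne sp.ne' 1
  have hF' : ∀ f ∈ ({(C, s)} : Set (Subgroup G × (G → ℝ))), f.1 ≤ C ∧ Sl f.1 f.2 := by
    rintro _ rfl
    exact ⟨le_rfl, S⟩
  have neg : ∀ {B : Subgroup G} {t : G → G → Prop} {g : G}, Inv B B t → g ∈ B → t g 1 → t 1 g⁻¹ :=
    fun {B} _ g i hg a => by simpa using i _ (B.inv_mem hg) g hg 1 B.one_mem a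
  have key : ∀ ρ, Ord C {(C, s)} ρ → ρ 1 p → ∃ o', Ord A F o' ∧ Agr C o' ρ := by
    intro ρ hρ ρp
    obtain ⟨o, h, op⟩ : ∃ o, Ord A F o ∧ o 1 p :=
      (h.1.tot 1 A.one_mem p (CA hp) p1).elim (fun a => ⟨o, h, a⟩) fun a => ⟨_, h.rev hF, a⟩
    by_cases e : α = 1
    · exact ⟨o, h, agr_of_signs S (h.res hF hs) hρ hp sp op ρp hα hk (.inl e)⟩
    obtain ⟨β, hβ, sβ, kβ, ρβ⟩ : ∃ β ∈ C, s β = 0 ∧ (∀ c ∈ C, s c = 0 → ∃ n : ℤ, c = β ^ n) ∧
        ρ 1 β := by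
      rcases hρ.1.tot 1 C.one_mem α hα (Ne.symm e) with a | a
      · exact ⟨α, hα, sα, hk, a⟩
      · refine ⟨α⁻¹, C.inv_mem hα, by rw [S.inv hα, sα, neg_zero], fun c hc sc => ?_,
          neg hρ.2.1 hα a⟩
        obtain ⟨n, rfl⟩ := hk c hc sc
        exact ⟨-n, by simp⟩
    have b1 : (1 : G) ≠ β := fun e => hρ.1.irr 1 C.one_mem (e ▸ ρβ)
    rcases h.1.tot 1 A.one_mem β (CA hβ) b1 with a | a
    · exact ⟨o, h, agr_of_signs S (h.res hF hs) hρ hp sp op ρp hβ kβ (.inr ⟨a, ρβ⟩)⟩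
    · obtain ⟨o', h', op', a'⟩ := flip hF hs h hp sp op (C.inv_mem hβ)
        (by rw [S.inv hβ, sβ, neg_zero]) (neg h.2.1 (CA hβ) a)
      exact ⟨o', h', agr_of_signs S (h'.res hF hs) hρ hp sp op' ρp hβ kβ
        (.inr ⟨by simpa using neg h'.2.1 (A.inv_mem (CA hβ)) a', ρβ⟩)⟩
  rcases hρ.1.tot 1 C.one_mem p hp p1 with a | a
  · exact key ρ hρ a
  · obtain ⟨o', h', k⟩ := key _ (hρ.rev hF') a
    exact ⟨_, h'.rev hF, fun x hx y hy => k y hy x hx⟩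

theorem sign' (hF : ∀ f ∈ F, f.1 ≤ A ∧ Sl f.1 f.2) (hs : (C, s) ∈ F) (h : Ord A F o) {α : G}
    (hα : α ∈ C) (sα : s α = 0) (hk : ∀ c ∈ C, s c = 0 → ∃ n : ℤ, c = α ^ n)
    (hρ : Ord C {(C, s)} ρ) : ∃ o', Ord A F o' ∧ Agr C o' ρ := by
  by_cases hp : ∃ p ∈ C, 0 < s p
  · obtain ⟨p, hp, sp⟩ := hp
    exact sign hF hs h hp sp hα sα hk hρ
  have CA : C ≤ A := (hF _ hs).1
  have S : Sl C s := (hF _ hs).2
  have z : ∀ c ∈ C, ∃ n : ℤ, c = α ^ n := fun c hc => hk c hc (le_antisymm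
    (not_lt.1 fun k => hp ⟨c, hc, k⟩)
    (not_lt.1 fun k => hp ⟨_, C.inv_mem hc, by rw [S.inv hc]; linarith⟩))
  have key : ∀ o ρ : G → G → Prop, Lin C o → Inv C C o → Lin C ρ → Inv C C ρ → o 1 α → ρ 1 α →
      Agr C o ρ := by
    intro o ρ l i l' i' a a'
    refine l.agr l' fun x hx y hy k => ?_
    have m := C.mul_mem (C.inv_mem hx) hy
    have k' : o 1 (x⁻¹ * y) := by simpa using i _ (C.inv_mem hx) x hx y hy k
    suffices b : ρ 1 (x⁻¹ * y) by simpa using i' x hx 1 C.one_mem _ m b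
    obtain ⟨n, e⟩ := z _ m
    rw [e] at k' ⊢
    obtain ⟨n, rfl | rfl⟩ := n.eq_nat_or_neg <;> rcases n with _ | n
    · exact absurd (by simpa using k') (l.irr 1 C.one_mem)
    · rw [zpow_natCast]
      exact pos_pow l' i' hα a' n
    · exact absurd (by simpa using k') (l.irr 1 C.one_mem)
    · rw [zpow_neg, zpow_natCast] at k'
      exact absurd k' (not_pos_inv l i (C.pow_mem hα _) (pos_pow l i hα a n))
  have R := h.res hF hs
  have rv : ∀ {t : G → G → Prop}, Inv C C t → Inv C C fun x y => t y x :=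
    fun i g hg x hx y hy => i g hg y hy x hx
  by_cases e : α = 1
  · refine ⟨o, h, fun x hx y hy => ?_⟩
    obtain ⟨n, rfl⟩ := z x hx
    obtain ⟨m, rfl⟩ := z y hy
    subst e
    simp only [one_zpow]
    exact iff_of_false (R.1.irr 1 C.one_mem) (hρ.1.irr 1 C.one_mem)
  rcases R.1.tot 1 C.one_mem α hα (Ne.symm e) with a | a <;>
    rcases hρ.1.tot 1 C.one_mem α hα (Ne.symm e) with b | b
  · exact ⟨o, h, key _ _ R.1 R.2.1 hρ.1 hρ.2.1 a b⟩
  · exact ⟨_, h.rev hF, fun x hx y hy => key _ _ R.1 R.2.1 hρ.1.rev (rv hρ.2.1) a b y hy x hx⟩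
  · exact ⟨_, h.rev hF, key _ _ R.1.rev (rv R.2.1) hρ.1 hρ.2.1 a b⟩
  · exact ⟨o, h, fun x hx y hy => key _ _ R.1.rev (rv R.2.1) hρ.1.rev (rv hρ.2.1) a b y hy x hx⟩

theorem star (hF : ∀ f ∈ F, f.1 ≤ A ∧ Sl f.1 f.2) (CA : C ≤ A) (l : Lin Y r) (c : Cl C Y)
    (i : Inv C Y r) (XY : X ⊆ Y) (cX : Cl A X) (iX : Inv A X r) (dX : ∀ f ∈ F, Det f.1 f.2 X r)
    {z : G} (zY : z ∈ Y) (h : Ord A F o)
    (a : Agr C o fun u v => r (u * z) (v * z)) :
    ∃ r', Lin (X ∪ {w | w * z⁻¹ ∈ A}) r' ∧ Inv A (X ∪ {w | w * z⁻¹ ∈ A}) r' ∧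
      (∀ f ∈ F, Det f.1 f.2 (X ∪ {w | w * z⁻¹ ∈ A}) r') ∧ Agr (X ∪ {w | w * z⁻¹ ∈ C}) r r' := by
  let κ : G → Set G := fun w =>
    {x | x ∈ X ∧ ((w ∈ X ∧ (x = w ∨ r x w)) ∨ (w ∉ X ∧ r (z * w⁻¹ * x) z))}
  let t : G → G → Prop := fun u v => o (u * z⁻¹) (v * z⁻¹)
  have lX := l.mono XY
  have cZ : Cl A {w | w * z⁻¹ ∈ A} := fun g hg x hx => by
    change g * x * z⁻¹ ∈ A
    rw [mul_assoc]
    exact A.mul_mem hg hx
  have lZ : Lin {w | w * z⁻¹ ∈ A} t := ⟨fun x hx => h.1.irr _ hx, fun x hx y hy w hw =>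
    h.1.trans _ hx _ hy _ hw, fun x hx y hy n => h.1.tot _ hx _ hy (by simpa using n)⟩
  have iZ : Inv A {w | w * z⁻¹ ∈ A} t := fun g hg x hx y hy k => by
    simpa only [t, mul_assoc] using h.2.1 g hg _ hx _ hy k
  have lo : ∀ u ∈ X ∪ {w | w * z⁻¹ ∈ A}, Low X r (κ u) := fun u hu => ⟨fun x hx => hx.1, by
    rintro x ⟨hx, ⟨u1, rfl | k⟩ | ⟨u1, k⟩⟩ y hy b
    · exact ⟨hy, .inl ⟨u1, .inr b⟩⟩
    · exact ⟨hy, .inl ⟨u1, .inr (lX.trans y hy x hx u u1 b k)⟩⟩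
    · have m : z * u⁻¹ ∈ A := by simpa using A.inv_mem (hu.resolve_left u1)
      exact ⟨hy, .inr ⟨u1, l.trans _ (XY (cX _ m y hy)) _ (XY (cX _ m x hx)) z zY
        (iX _ m y hy x hx b) k⟩⟩⟩
  have e : Eqv A (X ∪ {w | w * z⁻¹ ∈ A}) κ := fun g hg u _ x => by
    have g' := A.inv_mem hg
    change _ ∧ _ ↔ _ ∧ _
    rw [cX.iff hg, cX.iff g']
    refine and_congr_right fun hx => or_congr (and_congr_right fun u1 => or_congr ?_ ?_) ?_
    · exact inv_mul_eq_iff_eq_mul.symm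
    · rw [← iX.iff cX hg (cX _ g' x hx) u1, mul_inv_cancel_left]
    · simp only [mul_inv_rev, mul_assoc]
  have L := lex_lin (fun u hu v hv => Low.total lX (lo u hu) (lo v hv)) (sum_lin lX lZ)
  refine ⟨lex κ (sum X r t), L, lex_inv e (sum_inv cX iX iZ), fun f hf => ?_, ?_⟩
  · have fA := (hF f hf).1
    refine lex_det (hF f hf).2 lX (cX.mono fA) (iX.mono fA le_rfl) (dX f hf)
      ((cX.union cZ).mono fA) lo (fun g hg => e g (fA hg))
      (sum_det (cX.mono fA) (dX f hf) fun x hx p hp q hq sp sq k => ?_)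
    simpa only [t, mul_assoc] using h.2.2 f hf _ hx p hp q hq sp sq (by
      simpa only [t, mul_assoc] using k)
  have sub : X ∪ {w | w * z⁻¹ ∈ C} ⊆ Y := union_subset XY fun w hw => by
    simpa using c _ hw z zY
  have κe : ∀ u ∈ X ∪ {w | w * z⁻¹ ∈ C}, ∀ x, x ∈ κ u ↔ x ∈ X ∧ (x = u ∨ r x u) := by
    intro u hu x
    refine and_congr_right fun hx => ?_
    by_cases u1 : u ∈ X
    · simp [u1]
    · have m : z * u⁻¹ ∈ C := by simpa using C.inv_mem (hu.resolve_left u1)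
      have := i.iff c m (XY hx) (sub hu)
      rw [inv_mul_cancel_right] at this
      have n : x ≠ u := fun e => u1 (e ▸ hx)
      simp [u1, this, n]
  refine (l.mono sub).agr (L.mono (union_subset_union_right _ fun w hw => CA hw))
    fun u hu v hv k => lex_of (fun x hx => ?_) fun b => ?_
  · obtain ⟨hy, rfl | k'⟩ := (κe u hu x).1 hx
    · exact (κe v hv x).2 ⟨hy, .inr k⟩
    · exact (κe v hv x).2 ⟨hy, .inr (l.trans x (XY hy) u (sub hu) v (sub hv) k' k)⟩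
  by_cases u1 : u ∈ X <;> by_cases v1 : v ∈ X
  · exact (sum_in u1 v1).2 k
  · exact .inr (.inl ⟨u1, v1⟩)
  · obtain ⟨-, rfl | k'⟩ := (κe u hu v).1 (b ▸ (κe v hv v).2 ⟨v1, .inl rfl⟩)
    · exact absurd v1 u1
    · exact absurd k' (l.asymm (sub hu) (sub hv) k)
  · exact (sum_out u1 v1).2 ((a _ (hu.resolve_left u1) _ (hv.resolve_left v1)).2 (by simpa using k))

theorem merge (l : Lin Y r) (l' : Lin W r') (c : Cl C Y) (c' : Cl C W) (i : Inv C Y r)
    (i' : Inv C W r') (a : Agr (Y ∩ W) r r') :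
    ∃ t, Lin (Y ∪ W) t ∧ Inv C (Y ∪ W) t ∧ Agr Y r t ∧ Agr W r' t := by
  let κ : G → Set G := fun w => {d | d ∈ Y ∩ W ∧ (d = w ∨ (w ∈ Y ∧ r d w) ∨ (w ∈ W ∧ r' d w))}
  have lo : ∀ u, Low (Y ∩ W) r (κ u) := fun u => ⟨fun x hx => hx.1, by
    rintro x ⟨hx, rfl | ⟨u1, k⟩ | ⟨u1, k⟩⟩ y hy b
    · exact ⟨hy, .inr (.inl ⟨hx.1, b⟩)⟩
    · exact ⟨hy, .inr (.inl ⟨u1, l.trans y hy.1 x hx.1 u u1 b k⟩)⟩
    · exact ⟨hy, .inr (.inr ⟨u1, l'.trans y hy.2 x hx.2 u u1 ((a y hy x hx).1 b) k⟩)⟩⟩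
  have e : Eqv C (Y ∪ W) κ := fun g hg u _ x => by
    have g' := C.inv_mem hg
    change (_ ∧ _) ∧ _ ↔ (_ ∧ _) ∧ _
    rw [c.iff hg, c.iff g', c'.iff hg, c'.iff g']
    refine and_congr_right fun hx => or_congr inv_mul_eq_iff_eq_mul.symm
      (or_congr (and_congr_right fun u1 => ?_) (and_congr_right fun u1 => ?_))
    · rw [← i.iff c hg (c _ g' x hx.1) u1, mul_inv_cancel_left]
    · rw [← i'.iff c' hg (c' _ g' x hx.2) u1, mul_inv_cancel_left]
  have L := lex_lin (fun u _ v _ => Low.total (l.mono inter_subset_left) (lo u) (lo v))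
    (sum_lin l l')
  have κ1 : ∀ u ∈ Y, ∀ x, x ∈ κ u ↔ x ∈ Y ∩ W ∧ (x = u ∨ r x u) := fun u hu x =>
    and_congr_right fun hx => or_congr_right ⟨fun k => k.elim And.right
      fun k => (a x hx u ⟨hu, k.1⟩).2 k.2, fun k => .inl ⟨hu, k⟩⟩
  have κ2 : ∀ u ∈ W, ∀ x, x ∈ κ u ↔ x ∈ Y ∩ W ∧ (x = u ∨ r' x u) := fun u hu x =>
    and_congr_right fun hx => or_congr_right ⟨fun k => k.elim
      (fun k => (a x hx u ⟨k.1, hu⟩).1 k.2) And.right, fun k => .inr ⟨hu, k⟩⟩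
  refine ⟨lex κ (sum Y r r'), L, lex_inv e (sum_inv c i i'),
    l.agr (L.mono subset_union_left) fun u hu v hv k => lex_of (fun x hx => ?_)
      fun _ => (sum_in hu hv).2 k,
    l'.agr (L.mono subset_union_right) fun u hu v hv k => lex_of (fun x hx => ?_) fun b => ?_⟩
  · obtain ⟨hy, rfl | k'⟩ := (κ1 u hu x).1 hx
    · exact (κ1 v hv x).2 ⟨hy, .inr k⟩
    · exact (κ1 v hv x).2 ⟨hy, .inr (l.trans x hy.1 u hu v hv k' k)⟩
  · obtain ⟨hy, rfl | k'⟩ := (κ2 u hu x).1 hx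
    · exact (κ2 v hv x).2 ⟨hy, .inr k⟩
    · exact (κ2 v hv x).2 ⟨hy, .inr (l'.trans x hy.2 u hu v hv k' k)⟩
  by_cases u1 : u ∈ Y <;> by_cases v1 : v ∈ Y
  · exact (sum_in u1 v1).2 ((a u ⟨u1, hu⟩ v ⟨v1, hv⟩).2 k)
  · exact .inr (.inl ⟨u1, v1⟩)
  · obtain ⟨-, rfl | k'⟩ := (κ2 u hu v).1 (b ▸ (κ2 v hv v).2 ⟨⟨v1, hv⟩, .inl rfl⟩)
    · exact absurd v1 u1
    · exact absurd k' (l'.asymm hu hv k)
  · exact (sum_out u1 v1).2 k

end Pool.Agent.Work.MP_3d425c_gt.Gl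
end

-- merged part: Pool.Agent.Work.MP_3d425c_gt.Gl.Glue
section
/-! Gluing left orders along an amalgam over an abelian subgroup with a detected slope. -/

namespace Pool.Agent.Work.MP_3d425c_gt.Gl
open Set

variable {G : Type*} [Group G]

/-- ping-pong data saying that `H true ⊔ H false` is the amalgam of the `H b` over `C` -/
structure Amal (H : Bool → Subgroup G) (C : Subgroup G) (U : Bool → Set G) : Prop where
  out : ∀ b, ∀ c ∈ C, c ∉ U b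
  dis : ∀ g ∈ U true, g ∉ U false
  pp : ∀ b, ∀ h ∈ H b, h ∉ C → ∀ g ∈ H true ⊔ H false, g ∉ U b → h * g ∈ U b

/-- partial solutions of the gluing problem -/
structure St (H : Bool → Subgroup G) (C : Subgroup G) (s : G → ℝ)
    (F : Bool → Set (Subgroup G × (G → ℝ))) (U : Bool → Set G) where
  Y : Set G
  X : Bool → Set G
  r : G → G → Prop
  one : 1 ∈ Y
  sub : Y ⊆ (H true ⊔ H false : Subgroup G)
  lin : Lin Y r
  cl : Cl C Y
  inv : Inv C Y r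
  det : Det C s Y r
  xs : ∀ b, X b ⊆ Y
  xcl : ∀ b, Cl (H b) (X b)
  xinv : ∀ b, Inv (H b) (X b) r
  xdet : ∀ b, ∀ f ∈ F b, Det f.1 f.2 (X b) r
  up : ∀ b, ∀ g ∈ Y, g ∈ U b → g ∈ X b

variable {H : Bool → Subgroup G} {C : Subgroup G} {s : G → ℝ}
  {F : Bool → Set (Subgroup G × (G → ℝ))} {U : Bool → Set G}

/-- extension of partial solutions -/
def St.le (σ τ : St H C s F U) : Prop :=
  σ.Y ⊆ τ.Y ∧ (∀ b, σ.X b ⊆ τ.X b) ∧ Agr σ.Y σ.r τ.r

theorem St.le.trans {σ τ υ : St H C s F U} (a : σ.le τ) (b : τ.le υ) : σ.le υ :=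
  ⟨a.1.trans b.1, fun k => (a.2.1 k).trans (b.2.1 k), fun x hx y hy =>
    (a.2.2 x hx y hy).trans (b.2.2 x (a.1 hx) y (a.1 hy))⟩

theorem St.chain (hF : ∀ b, ∀ f ∈ F b, f.1 ≤ H b ∧ Sl f.1 f.2) (c : Set (St H C s F U))
    (hc : IsChain St.le c) (ne : c.Nonempty) : ∃ υ : St H C s F U, ∀ σ ∈ c, σ.le υ := by
  have two : ∀ σ ∈ c, ∀ τ ∈ c, ∃ υ ∈ c, σ.le υ ∧ τ.le υ := fun σ hσ τ hτ => by
    have rf : ∀ σ : St H C s F U, σ.le σ := fun σ => ⟨le_rfl, fun _ => le_rfl, fun _ _ _ _ => .rfl⟩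
    by_cases e : σ = τ
    · exact ⟨τ, hτ, e ▸ rf σ, rf τ⟩
    · exact (hc hσ hτ e).elim (fun a => ⟨τ, hτ, a, rf τ⟩) fun a => ⟨σ, hσ, rf σ, a⟩
  let r : G → G → Prop := fun x y => ∃ σ ∈ c, x ∈ σ.Y ∧ y ∈ σ.Y ∧ σ.r x y
  have ag : ∀ σ ∈ c, Agr σ.Y σ.r r := fun σ hσ x hx y hy => ⟨fun a => ⟨σ, hσ, hx, hy, a⟩,
    fun ⟨τ, hτ, x1, y1, a⟩ => by
      obtain ⟨υ, -, k, k'⟩ := two σ hσ τ hτ
      exact (k.2.2 x hx y hy).2 ((k'.2.2 x x1 y y1).1 a)⟩
  obtain ⟨σ₀, h₀⟩ := ne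
  refine ⟨⟨{x | ∃ σ ∈ c, x ∈ σ.Y}, fun b => {x | ∃ σ ∈ c, x ∈ σ.X b}, r, ⟨σ₀, h₀, σ₀.one⟩,
    fun x ⟨σ, _, a⟩ => σ.sub a, ⟨?_, ?_, ?_⟩, fun g hg x ⟨σ, hσ, a⟩ => ⟨σ, hσ, σ.cl g hg x a⟩,
    ?_, ?_, fun b x ⟨σ, hσ, a⟩ => ⟨σ, hσ, σ.xs b a⟩,
    fun b g hg x ⟨σ, hσ, a⟩ => ⟨σ, hσ, σ.xcl b g hg x a⟩, ?_, ?_,
    fun b g ⟨σ, hσ, a⟩ k => ⟨σ, hσ, σ.up b g a k⟩⟩,
    fun σ hσ => ⟨fun x a => ⟨σ, hσ, a⟩, fun b x a => ⟨σ, hσ, a⟩, ag σ hσ⟩⟩
  · rintro x - ⟨σ, -, a, -, k⟩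
    exact σ.lin.irr x a k
  · rintro x - y - z - ⟨σ, hσ, x1, y1, a⟩ ⟨τ, hτ, y2, z1, b⟩
    obtain ⟨υ, hυ, k, k'⟩ := two σ hσ τ hτ
    exact ⟨υ, hυ, k.1 x1, k'.1 z1, υ.lin.trans x (k.1 x1) y (k.1 y1) z (k'.1 z1)
      ((k.2.2 x x1 y y1).1 a) ((k'.2.2 y y2 z z1).1 b)⟩
  · rintro x ⟨σ, hσ, x1⟩ y ⟨τ, hτ, y1⟩ n
    obtain ⟨υ, hυ, k, k'⟩ := two σ hσ τ hτ
    exact (υ.lin.tot x (k.1 x1) y (k'.1 y1) n).imp (fun a => ⟨υ, hυ, k.1 x1, k'.1 y1, a⟩)
      fun a => ⟨υ, hυ, k'.1 y1, k.1 x1, a⟩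
  · rintro g hg x - y - ⟨σ, hσ, x1, y1, a⟩
    exact ⟨σ, hσ, σ.cl g hg x x1, σ.cl g hg y y1, σ.inv g hg x x1 y y1 a⟩
  · rintro x ⟨σ, hσ, a⟩
    exact σ.det.congr σ.cl (ag σ hσ) x a
  · rintro b g hg x ⟨σ, hσ, x1⟩ y ⟨τ, hτ, y1⟩
    obtain ⟨υ, hυ, k, k'⟩ := two σ hσ τ hτ
    exact (υ.xinv b).congr (υ.xcl b) (fun x hx y hy => ag υ hυ x (υ.xs b hx) y (υ.xs b hy)) g hg
      x (k.2.1 b x1) y (k'.2.1 b y1)
  · rintro b f hf x ⟨σ, hσ, a⟩
    exact (σ.xdet b f hf).congr ((σ.xcl b).mono (hF b f hf).1)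
      (fun x hx y hy => ag σ hσ x (σ.xs b hx) y (σ.xs b hy)) x a

theorem St.step (hU : Amal H C U) (hF : ∀ b, ∀ f ∈ F b, f.1 ≤ H b ∧ Sl f.1 f.2)
    (hs : ∀ b, (C, s) ∈ F b) {α : G} (hα : α ∈ C) (sα : s α = 0)
    (hk : ∀ c ∈ C, s c = 0 → ∃ n : ℤ, c = α ^ n) (ho : ∀ b, ∃ r, Ord (H b) (F b) r)
    (σ : St H C s F U) (b : Bool) {z : G} (zY : z ∈ σ.Y) (zX : z ∉ σ.X b) :
    ∃ τ : St H C s F U, σ.le τ ∧ z ∈ τ.X b := by
  have CA : C ≤ H b := (hF b _ (hs b)).1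
  have cz : ∀ u ∈ C, u * z ∈ σ.Y := fun u hu => σ.cl u hu z zY
  obtain ⟨o₀, h₀⟩ := ho b
  obtain ⟨o, h, a⟩ := sign' (ρ := fun u v => σ.r (u * z) (v * z)) (hF b) (hs b) h₀ hα sα hk
    ⟨⟨fun x hx => σ.lin.irr _ (cz x hx), fun x hx y hy w hw =>
      σ.lin.trans _ (cz x hx) _ (cz y hy) _ (cz w hw), fun x hx y hy n =>
      σ.lin.tot _ (cz x hx) _ (cz y hy) (by simpa using n)⟩, fun g hg x hx y hy k => by
      simpa only [mul_assoc] using σ.inv g hg _ (cz x hx) _ (cz y hy) k, by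
      rintro _ rfl x hx q hq q' hq' sq sq' k
      simpa only [mul_assoc] using σ.det _ (cz x hx) q hq q' hq' sq sq' (by
        simpa only [mul_assoc] using k)⟩
  obtain ⟨r', l', i', d', a'⟩ := star (hF b) CA σ.lin σ.cl σ.inv (σ.xs b) (σ.xcl b) (σ.xinv b)
    (σ.xdet b) zY h a
  set W := σ.X b ∪ {w | w * z⁻¹ ∈ H b} with hW
  have cW : Cl (H b) W := (σ.xcl b).union fun g hg x hx => by
    change g * x * z⁻¹ ∈ H b
    rw [mul_assoc]
    exact (H b).mul_mem hg hx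
  have zU : z ∉ U b := fun k => zX (σ.up b z zY k)
  have new : ∀ w, w * z⁻¹ ∈ H b → w * z⁻¹ ∉ C → w ∈ U b := fun w k k' => by
    simpa using hU.pp b _ k k' z (σ.sub zY) zU
  have D : σ.Y ∩ W ⊆ σ.X b ∪ {w | w * z⁻¹ ∈ C} := by
    rintro w ⟨w1, w2 | w2⟩
    · exact .inl w2
    · by_cases k : w * z⁻¹ ∈ C
      · exact .inr k
      · exact .inl (σ.up b w w1 (new w w2 k))
  obtain ⟨t, lt, it, a1, a2⟩ := merge σ.lin l' σ.cl (cW.mono CA) σ.inv (i'.mono CA le_rfl)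
    fun x hx y hy => a' x (D hx) y (D hy)
  have HG : H b ≤ H true ⊔ H false := by cases b; exacts [le_sup_right, le_sup_left]
  have a3 : ∀ e, Agr (σ.X e) σ.r t := fun e x hx y hy => a1 x (σ.xs e hx) y (σ.xs e hy)
  refine ⟨⟨σ.Y ∪ W, fun e => if e = b then W else σ.X e, t, .inl σ.one, ?_, lt,
    σ.cl.union (cW.mono CA), it, (σ.det.congr σ.cl a1).union
      ((d' _ (hs b)).congr (cW.mono CA) a2), fun e => ?_, fun e => ?_, fun e => ?_,
    fun e f hf => ?_, fun e g hg k => ?_⟩, ⟨subset_union_left, fun e => ?_, a1⟩, ?_⟩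
  · rintro w (k | k | k)
    · exact σ.sub k
    · exact σ.sub (σ.xs b k)
    · simpa using (H true ⊔ H false).mul_mem (HG k) (σ.sub zY)
  · split_ifs
    · exact subset_union_right
    · exact (σ.xs e).trans subset_union_left
  · split_ifs with k
    · exact k ▸ cW
    · exact σ.xcl e
  · split_ifs with k
    · exact k ▸ i'.congr cW a2
    · exact (σ.xinv e).congr (σ.xcl e) (a3 e)
  · split_ifs with k
    · subst k
      exact (d' f hf).congr (cW.mono (hF _ f hf).1) a2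
    · exact (σ.xdet e f hf).congr ((σ.xcl e).mono (hF e f hf).1) (a3 e)
  · split_ifs with n
    · subst n
      exact hg.elim (fun g1 => .inl (σ.up _ g g1 k)) id
    · refine σ.up e g ?_ k
      rcases hg with g1 | g1 | g1
      · exact g1
      · exact σ.xs b g1
      · by_cases m : g * z⁻¹ ∈ C
        · simpa using cz _ m
        · have := new g g1 m
          cases b <;> cases e
          exacts [absurd rfl n, absurd this (hU.dis g k), absurd k (hU.dis g this), absurd rfl n]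
  · change σ.X e ⊆ if e = b then W else σ.X e
    split_ifs with k
    · exact k ▸ subset_union_left
    · exact le_rfl
  · change z ∈ if b = b then W else σ.X b
    rw [if_pos rfl]
    exact .inr (by simp)

/-- GLUE: a good order on one factor extends to the amalgam -/
theorem glue_ext (hU : Amal H C U) (hF : ∀ b, ∀ f ∈ F b, f.1 ≤ H b ∧ Sl f.1 f.2)
    (hs : ∀ b, (C, s) ∈ F b) {α : G} (hα : α ∈ C) (sα : s α = 0)
    (hk : ∀ c ∈ C, s c = 0 → ∃ n : ℤ, c = α ^ n) {o : G → G → Prop} (h : Ord (H true) (F true) o)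
    (h' : ∃ r, Ord (H false) (F false) r) :
    ∃ r, Ord (H true ⊔ H false) (F true ∪ F false) r ∧ Agr (H true) o r := by
  have ho : ∀ b, ∃ r, Ord (H b) (F b) r := fun b => by cases b; exacts [h', ⟨o, h⟩]
  have CA : C ≤ H true := (hF _ _ (hs true)).1
  let σ₀ : St H C s F U := ⟨H true, fun b => {x | b = true ∧ x ∈ H true}, o, (H true).one_mem,
    (le_sup_left (a := H true) :), h.1, (Cl.self _).mono CA, h.2.1.mono CA le_rfl, h.2.2 _ (hs true),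
    fun _ _ a => a.2, by
      rintro _ g hg x ⟨rfl, a⟩
      exact ⟨rfl, (H true).mul_mem hg a⟩, by
      rintro _ g hg x ⟨rfl, a⟩ y b
      exact h.2.1 g hg x a y b.2, by
      rintro _ f hf x ⟨rfl, a⟩
      exact h.2.2 f hf x a, by
      rintro (_ | _) g hg k
      · by_cases m : g ∈ C
        · exact absurd k (hU.out _ g m)
        · refine absurd k (hU.dis g ?_)
          simpa using hU.pp true g hg m 1 (Subgroup.one_mem _) (hU.out _ 1 C.one_mem)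
      · exact ⟨rfl, hg⟩⟩
  have : Nonempty {σ : St H C s F U // σ₀.le σ} :=
    ⟨⟨σ₀, le_rfl, fun _ => le_rfl, fun _ _ _ _ => .rfl⟩⟩
  obtain ⟨⟨m, m0⟩, hm'⟩ := exists_maximal_of_nonempty_chains_bounded
    (α := {σ : St H C s F U // σ₀.le σ}) (r := fun σ τ => σ.1.le τ.1) (fun c hc ⟨σ, hσ⟩ => by
      obtain ⟨υ, k⟩ := St.chain hF (Subtype.val '' c) (by
        rintro _ ⟨a, ha, rfl⟩ _ ⟨b, hb, rfl⟩ n
        exact hc ha hb fun e => n (congrArg _ e)) ⟨_, σ, hσ, rfl⟩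
      exact ⟨⟨υ, σ.2.trans (k _ ⟨σ, hσ, rfl⟩)⟩, fun τ hτ => k _ ⟨τ, hτ, rfl⟩⟩) St.le.trans
  have hm : ∀ τ, m.le τ → τ.le m := fun τ k => hm' ⟨τ, m0.trans k⟩ k
  have e : ∀ b, m.X b = m.Y := fun b => (m.xs b).antisymm fun z zY => by
    by_contra zX
    obtain ⟨τ, k, k'⟩ := m.step hU hF hs hα sα hk ho b zY zX
    exact zX ((hm τ k).2.1 b k')
  have c : ∀ b, Cl (H b) m.Y := fun b => e b ▸ m.xcl b
  have i : ∀ b, Inv (H b) m.Y m.r := fun b => e b ▸ m.xinv b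
  have all : ∀ g ∈ H true ⊔ H false, (∀ x, g * x ∈ m.Y ↔ x ∈ m.Y) ∧
      ∀ x ∈ m.Y, ∀ y ∈ m.Y, m.r (g * x) (g * y) ↔ m.r x y := by
    intro g hg
    rw [Subgroup.sup_eq_closure] at hg
    induction hg using Subgroup.closure_induction with
    | mem g hg =>
      rcases hg with hg | hg <;>
        exact ⟨fun _ => (c _).iff hg, fun _ hx _ hy => (i _).iff (c _) hg hx hy⟩
    | one => simp
    | mul g g' _ _ a a' =>
      refine ⟨fun x => by rw [mul_assoc, a.1, a'.1], fun x hx y hy => ?_⟩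
      rw [mul_assoc, mul_assoc, a.2 _ ((a'.1 x).2 hx) _ ((a'.1 y).2 hy), a'.2 x hx y hy]
    | inv g _ a =>
      have k : ∀ x, g⁻¹ * x ∈ m.Y ↔ x ∈ m.Y := fun x => by rw [← a.1, mul_inv_cancel_left]
      refine ⟨k, fun x hx y hy => ?_⟩
      rw [← a.2 _ ((k x).2 hx) _ ((k y).2 hy), mul_inv_cancel_left, mul_inv_cancel_left]
  have sub : ((H true ⊔ H false : Subgroup G) : Set G) ⊆ m.Y := fun g hg => by
    simpa using ((all g hg).1 1).2 m.one
  refine ⟨m.r, ⟨m.lin.mono sub, fun g hg x hx y hy => ((all g hg).2 x (sub hx) y (sub hy)).2, ?_⟩,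
    m0.2.2⟩
  rintro f (hf | hf) <;> exact (m.xdet _ f hf).mono (e _ ▸ sub)

/-- GLUE: good orders on the two factors give a good order on the amalgam -/
theorem glue (hU : Amal H C U) (hF : ∀ b, ∀ f ∈ F b, f.1 ≤ H b ∧ Sl f.1 f.2)
    (hs : ∀ b, (C, s) ∈ F b) {α : G} (hα : α ∈ C) (sα : s α = 0)
    (hk : ∀ c ∈ C, s c = 0 → ∃ n : ℤ, c = α ^ n) (ho : ∀ b, ∃ r, Ord (H b) (F b) r) :
    ∃ r, Ord (H true ⊔ H false) (F true ∪ F false) r :=
  (ho true).elim fun _ h => (glue_ext hU hF hs hα sα hk h (ho false)).imp fun _ a => a.1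

/-- reduced words, with the factor of the first letter -/
inductive Rd (H : Bool → Subgroup G) (C : Subgroup G) : Option Bool → G → Prop
  | nil (c : G) : c ∈ C → Rd H C none c
  | cons (b : Bool) (o : Option Bool) (g h : G) :
      Rd H C o g → o ≠ some b → h ∈ H b → h ∉ C → Rd H C (some b) (h * g)

theorem Rd.mul (hC : ∀ b, C ≤ H b) {o : Option Bool} {g c : G} (a : Rd H C o g) (hc : c ∈ C) :
    Rd H C o (c * g) := by
  cases a with
  | nil _ k => exact .nil _ (C.mul_mem hc k)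
  | cons b o g h k n m m' =>
    rw [← mul_assoc]
    exact .cons b o g _ k n ((H b).mul_mem (hC b hc) m) fun e => m' ((C.mul_mem_cancel_left hc).1 e)

theorem Rd.step (hC : ∀ b, C ≤ H b) {o : Option Bool} {g h : G} {b : Bool} (a : Rd H C o g)
    (hh : h ∈ H b) : ∃ o', Rd H C o' (h * g) := by
  by_cases k : h ∈ C
  · exact ⟨o, a.mul hC k⟩
  by_cases n : o = some b
  swap
  · exact ⟨_, .cons b o g h a n hh k⟩
  subst n
  generalize e : some b = o at a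
  cases a with
  | nil => cases e
  | cons b' o g h' a n m m' =>
    cases e
    rw [← mul_assoc]
    by_cases k' : h * h' ∈ C
    · exact ⟨o, a.mul hC k'⟩
    · exact ⟨_, .cons b o g _ a n ((H b).mul_mem hh m) k'⟩

theorem Rd.ex (hC : ∀ b, C ≤ H b) {g : G} (hg : g ∈ H true ⊔ H false) : ∃ o, Rd H C o g := by
  rw [Subgroup.sup_eq_closure] at hg
  induction hg using Subgroup.closure_induction_left with
  | one => exact ⟨_, .nil 1 C.one_mem⟩
  | mul_left h hh g _ a =>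
    obtain ⟨o, a⟩ := a
    rcases hh with hh | hh <;> exact a.step hC hh
  | inv_mul_cancel h hh g _ a =>
    obtain ⟨o, a⟩ := a
    rcases hh with hh | hh <;> exact a.step hC (Subgroup.inv_mem _ hh)

theorem Rd.uniq (nf : ∀ b g, Rd H C (some b) g → g ∉ C) {o : Option Bool} {g : G}
    (a : Rd H C o g) : ∀ o' g', Rd H C o' g' → o ≠ o' → g⁻¹ * g' ∉ C := by
  induction a with
  | nil c hc =>
    rintro (_ | b) g' a' n k
    · exact n rfl
    · exact nf b g' a' ((C.mul_mem_cancel_left (C.inv_mem hc)).1 k)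
  | cons b o g h _ n m m' ih =>
    intro o' g' a' n'
    rw [mul_inv_rev, mul_assoc]
    exact ih _ _ (.cons b o' g' _ a' n'.symm ((H b).inv_mem m) fun k => m' (C.inv_mem_iff.1 k)) n

/-- the normal form property gives ping-pong data -/
theorem amal_of_nf (hC : ∀ b, C ≤ H b) (nf : ∀ b g, Rd H C (some b) g → g ∉ C) :
    Amal H C fun b => {g | Rd H C (some b) g} :=
  ⟨fun b c hc a => nf b c a hc, fun g a a' => Rd.uniq nf a _ g a' (by simp) (by simp [C.one_mem]),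
    fun b h hh k g hg n => by
      obtain ⟨o, a⟩ := Rd.ex hC hg
      exact .cons b o g h a (fun e => n (e ▸ a)) hh k⟩

end Pool.Agent.Work.MP_3d425c_gt.Gl
end

-- merged part: Pool.Agent.Work.MP_3d425c_gt.Gl.Side
section
/-! Half spaces and potentials on a tree. -/

namespace Pool.Agent.Work.MP_3d425c_gt.Gl
open Relation

variable {V : Type*} {T : SimpleGraph V}

/-- `x` lies on the side of `b` of the edge from `a` to `b` -/
def side (T : SimpleGraph V) (a b x : V) : Prop :=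
  ReflTransGen (fun p q => T.Adj p q ∧ s(p, q) ≠ s(a, b)) b x

theorem rmono {r r' : V → V → Prop} {a b : V} (k : ReflTransGen r a b)
    (h : ∀ p q, r p q → r' p q) : ReflTransGen r' a b := ReflTransGen.mono h _ _ k

theorem rsymm {r : V → V → Prop} {a b : V} (k : ReflTransGen r a b)
    (h : ∀ p q, r p q → r q p) : ReflTransGen r b a := by
  induction k with
  | refl => exact .refl
  | tail _ m ih => exact ih.head (h _ _ m)

theorem conn (hT : T.IsTree) (P : V → Prop) (h : ∀ x y, T.Adj x y → P x → P y) {x : V} (a : P x)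
    (y : V) : P y := by
  have := (T.reachable_iff_reflTransGen x y).1 (hT.connected x y)
  induction this with
  | refl => exact a
  | tail _ k ih => exact h _ _ k ih

theorem side_not (hT : T.IsTree) {a b : V} (h : T.Adj a b) : ¬ side T a b a := fun k => by
  refine SimpleGraph.isBridge_iff.1
    (SimpleGraph.isAcyclic_iff_forall_adj_isBridge.1 hT.isAcyclic h) (SimpleGraph.Reachable.symm ?_)
  rw [SimpleGraph.reachable_iff_reflTransGen]
  exact rmono k fun p q m => by simpa using m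

theorem side_adj {a b x y : V} (h : T.Adj x y) (n : s(x, y) ≠ s(a, b)) :
    side T a b x ↔ side T a b y :=
  ⟨fun k => k.tail ⟨h, n⟩, fun k => k.tail ⟨h.symm, by rwa [Sym2.eq_swap]⟩⟩

theorem side_compl (hT : T.IsTree) {a b : V} (h : T.Adj a b) (x : V) :
    side T b a x ↔ ¬ side T a b x := by
  have ea : side T b a a ↔ ¬ side T a b a := iff_of_true .refl (side_not hT h)
  have eb : side T b a b ↔ ¬ side T a b b := iff_of_false (side_not hT h.symm) fun k => k .refl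
  refine conn hT (fun x => side T b a x ↔ ¬ side T a b x) (fun p q k ih => ?_) ea x
  by_cases e : s(p, q) = s(a, b)
  · rcases Sym2.eq_iff.1 e with ⟨-, rfl⟩ | ⟨-, rfl⟩
    exacts [eb, ea]
  · rw [← side_adj k e, ← side_adj k (by rwa [Sym2.eq_swap (a := b)])]
    exact ih

theorem nested {a b c d x : V} (h : T.Adj c d) (n : s(c, d) ≠ s(a, b)) (h1 : ¬ side T a b c)
    (h2 : ¬ side T c d a) (k : side T c d x) : ¬ side T a b x := by
  induction k with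
  | refl => rwa [← side_adj h n]
  | @tail p q k m ih =>
    by_cases e : s(p, q) = s(a, b)
    · rcases Sym2.eq_iff.1 e with ⟨rfl, -⟩ | ⟨-, rfl⟩
      exacts [absurd k h2, absurd (k.tail m) h2]
    · rwa [← side_adj m.1 e]

theorem potential (hT : T.IsTree) (ε : V → V → ℤ) (an : ∀ p q, ε q p = - ε p q) :
    ∃ f : V → ℤ, ∀ p q, T.Adj p q → f q - f p = ε p q := by
  classical
  obtain ⟨v⟩ := hT.connected.nonempty
  choose P hP uP using hT.existsUnique_path v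
  have one : ∀ p q (h : T.Adj p q), q ∉ (P p).support →
      ((P q).darts.map fun d => ε d.fst d.snd).sum - ((P p).darts.map fun d => ε d.fst d.snd).sum
        = ε p q := fun p q h n => by
    rw [← uP q _ ((hP p).concat n h), SimpleGraph.Walk.darts_concat]
    simp
  refine ⟨fun x => ((P x).darts.map fun d => ε d.fst d.snd).sum, fun p q h => ?_⟩
  by_cases a : q ∈ (P p).support
  swap
  · exact one p q h a
  by_cases b : p ∈ (P q).support
  · have a' := SimpleGraph.Walk.length_takeUntil_lt_length a h.ne'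
    have b' := SimpleGraph.Walk.length_takeUntil_lt_length b h.ne
    rw [uP _ _ ((hP p).takeUntil a)] at a'
    rw [uP _ _ ((hP q).takeUntil b)] at b'
    omega
  · have := one q p h.symm b
    rw [an p q] at this
    linarith

variable {G : Type*} [Group G] [MulAction G V]

theorem side_smul (act : ∀ (g : G) p q, T.Adj p q → T.Adj (g • p) (g • q)) (g : G) {a b x : V}
    (k : side T a b x) : side T (g • a) (g • b) (g • x) := by
  induction k with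
  | refl => exact .refl
  | tail _ m ih => exact ih.tail ⟨act g _ _ m.1, fun e => m.2 (by simpa using e)⟩

end Pool.Agent.Work.MP_3d425c_gt.Gl
end

-- merged part: Pool.Agent.Work.MP_3d425c_gt.Gl.Tree
section
/-! Groups acting on trees whose vertex groups have orders detecting slopes on the edge groups. -/

namespace Pool.Agent.Work.MP_3d425c_gt.Gl
open Set Relation MulAction

variable {G V : Type*} [Group G] [MulAction G V]

/-- an action on a tree without inversion, with slopes on the edge groups that are detected by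
orders on the vertex groups -/
structure Act (T : SimpleGraph V) (F : V → Set (Subgroup G × (G → ℝ))) : Prop where
  tree : T.IsTree
  act : ∀ (g : G) p q, T.Adj p q → T.Adj (g • p) (g • q)
  ninv : ∀ (g : G) p q, T.Adj p q → g • p = q → g • q ≠ p
  fam : ∀ v, ∀ f ∈ F v, f.1 ≤ stabilizer G v ∧ Sl f.1 f.2
  edge : ∀ v w, T.Adj v w → ∃ s α, (stabilizer G v ⊓ stabilizer G w, s) ∈ F v ∩ F w ∧
    α ∈ stabilizer G v ⊓ stabilizer G w ∧ s α = 0 ∧
    ∀ c ∈ stabilizer G v ⊓ stabilizer G w, s c = 0 → ∃ n : ℤ, c = α ^ n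
  ord : ∀ v, ∃ r, Ord (stabilizer G v) (F v) r

/-- the group generated by the stabilisers of the points of `S` -/
def gen (G : Type*) {V : Type*} [Group G] [MulAction G V] (S : Set V) : Subgroup G :=
  ⨆ v ∈ S, stabilizer G v

theorem gen_le {S : Set V} {E : Subgroup G} : gen G S ≤ E ↔ ∀ v ∈ S, stabilizer G v ≤ E :=
  iSup₂_le_iff

theorem le_gen {S : Set V} {v : V} (h : v ∈ S) : stabilizer G v ≤ gen G S := gen_le.1 le_rfl v h

theorem gen_mono {S S' : Set V} (h : S ⊆ S') : gen G S ≤ gen G S' :=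
  gen_le.2 fun _ hv => le_gen (h hv)

/-- connected partial transversals with an order on the group generated by the stabilisers -/
structure Dom (T : SimpleGraph V) (F : V → Set (Subgroup G × (G → ℝ))) (E : Subgroup G) (v : V) where
  S : Set V
  r : G → G → Prop
  mem : v ∈ S
  con : ∀ u ∈ S, ReflTransGen (fun p q => T.Adj p q ∧ p ∈ S ∧ q ∈ S) v u
  inj : ∀ g ∈ E, ∀ u ∈ S, g • u ∈ S → g • u = u
  ord : Ord (gen G S) (⋃ u ∈ S, F u) r

variable {T : SimpleGraph V} {F : V → Set (Subgroup G × (G → ℝ))} {E : Subgroup G} {v₀ : V}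

/-- extension -/
def Dom.le (σ τ : Dom T F E v₀) : Prop := σ.S ⊆ τ.S ∧ Agr (gen G σ.S) σ.r τ.r

theorem Dom.le.trans {σ τ υ : Dom T F E v₀} (a : σ.le τ) (b : τ.le υ) : σ.le υ :=
  ⟨a.1.trans b.1, fun x hx y hy =>
    (a.2 x hx y hy).trans (b.2 x (gen_mono a.1 hx) y (gen_mono a.1 hy))⟩

theorem Act.fam' (A : Act T F) (S : Set V) : ∀ f ∈ ⋃ u ∈ S, F u, f.1 ≤ gen G S ∧ Sl f.1 f.2 := by
  intro f hf
  obtain ⟨u, hu, k⟩ := mem_iUnion₂.1 hf
  exact ⟨(A.fam u f k).1.trans (le_gen hu), (A.fam u f k).2⟩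

theorem Dom.chain (A : Act T F) (c : Set (Dom T F E v₀)) (hc : IsChain Dom.le c)
    (ne : c.Nonempty) : ∃ υ : Dom T F E v₀, ∀ σ ∈ c, σ.le υ := by
  have two : ∀ σ ∈ c, ∀ τ ∈ c, ∃ υ ∈ c, σ.le υ ∧ τ.le υ := fun σ hσ τ hτ => by
    have rf : ∀ σ : Dom T F E v₀, σ.le σ := fun σ => ⟨le_rfl, fun _ _ _ _ => .rfl⟩
    by_cases e : σ = τ
    · exact ⟨τ, hτ, e ▸ rf σ, rf τ⟩
    · exact (hc hσ hτ e).elim (fun a => ⟨τ, hτ, a, rf τ⟩) fun a => ⟨σ, hσ, rf σ, a⟩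
  let r : G → G → Prop := fun x y => ∃ σ ∈ c, x ∈ gen G σ.S ∧ y ∈ gen G σ.S ∧ σ.r x y
  have ag : ∀ σ ∈ c, Agr (gen G σ.S) σ.r r := fun σ hσ x hx y hy => ⟨fun a => ⟨σ, hσ, hx, hy, a⟩,
    fun ⟨τ, hτ, x1, y1, a⟩ => by
      obtain ⟨υ, -, k, k'⟩ := two σ hσ τ hτ
      exact (k.2 x hx y hy).2 ((k'.2 x x1 y y1).1 a)⟩
  obtain ⟨σ₀, h₀⟩ := ne
  have fin : ∀ g ∈ gen G {x | ∃ σ ∈ c, x ∈ σ.S}, ∀ σ ∈ c, ∃ τ ∈ c, σ.le τ ∧ g ∈ gen G τ.S := by
    intro g hg σ hσ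
    let K : Subgroup G := ⟨⟨⟨{g | ∃ τ ∈ c, g ∈ gen G τ.S}, fun ⟨a, ha, a1⟩ ⟨b, hb, b1⟩ => by
      obtain ⟨υ, hυ, k, k'⟩ := two a ha b hb
      exact ⟨υ, hυ, mul_mem (gen_mono k.1 a1) (gen_mono k'.1 b1)⟩⟩, σ, hσ, one_mem _⟩,
      fun ⟨a, ha, a1⟩ => ⟨a, ha, inv_mem a1⟩⟩
    obtain ⟨τ, hτ, k⟩ := (gen_le (E := K)).2 (by
      rintro v ⟨τ, hτ, k⟩ g hg
      exact ⟨τ, hτ, le_gen k hg⟩) hg
    obtain ⟨υ, hυ, a, b⟩ := two σ hσ τ hτ
    exact ⟨υ, hυ, a, gen_mono b.1 k⟩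
  refine ⟨⟨{x | ∃ σ ∈ c, x ∈ σ.S}, r, ⟨σ₀, h₀, σ₀.mem⟩, fun u ⟨σ, hσ, a⟩ =>
    rmono (σ.con u a) fun p q k => ⟨k.1, ⟨σ, hσ, k.2.1⟩, σ, hσ, k.2.2⟩, ?_, ⟨?_, ?_, ?_⟩, ?_, ?_⟩,
    fun σ hσ => ⟨fun x a => ⟨σ, hσ, a⟩, ag σ hσ⟩⟩
  · rintro g hg u ⟨σ, hσ, a⟩ ⟨τ, hτ, b⟩
    obtain ⟨υ, -, k, k'⟩ := two σ hσ τ hτ
    exact υ.inj g hg u (k.1 a) (k'.1 b)
  · rintro x - ⟨σ, -, a, -, k⟩
    exact σ.ord.1.irr x a k
  · rintro x - y - z - ⟨σ, hσ, x1, y1, a⟩ ⟨τ, hτ, y2, z1, b⟩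
    obtain ⟨υ, hυ, k, k'⟩ := two σ hσ τ hτ
    exact ⟨υ, hυ, gen_mono k.1 x1, gen_mono k'.1 z1, υ.ord.1.trans x (gen_mono k.1 x1) y
      (gen_mono k.1 y1) z (gen_mono k'.1 z1) ((k.2 x x1 y y1).1 a) ((k'.2 y y2 z z1).1 b)⟩
  · intro x hx y hy n
    obtain ⟨σ, hσ, -, x1⟩ := fin x hx σ₀ h₀
    obtain ⟨τ, hτ, k, y1⟩ := fin y hy σ hσ
    have x2 := gen_mono k.1 x1
    exact (τ.ord.1.tot x x2 y y1 n).imp (fun a => ⟨τ, hτ, x2, y1, a⟩) fun a => ⟨τ, hτ, y1, x2, a⟩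
  · rintro g hg x - y - ⟨σ, hσ, x1, y1, a⟩
    obtain ⟨τ, hτ, k, g1⟩ := fin g hg σ hσ
    have x2 := gen_mono k.1 x1
    have y2 := gen_mono k.1 y1
    exact ⟨τ, hτ, mul_mem g1 x2, mul_mem g1 y2, τ.ord.2.1 g g1 x x2 y y2 ((k.2 x x1 y y1).1 a)⟩
  · intro f hf x hx
    obtain ⟨u, ⟨σ, hσ, hu⟩, k⟩ := mem_iUnion₂.1 hf
    obtain ⟨τ, hτ, a, x1⟩ := fin x hx σ hσ
    have m : f ∈ ⋃ u ∈ τ.S, F u := mem_iUnion₂.2 ⟨u, a.1 hu, k⟩
    exact (τ.ord.2.2 f m).congr ((Cl.self _).mono (A.fam' _ f m).1) (ag τ hτ) x x1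

theorem Dom.step (A : Act T F) (hE : ∀ v : V, stabilizer G v ≤ E) (σ : Dom T F E v₀) {v w : V}
    (hv : v ∈ σ.S) (h : T.Adj v w) (n : ∀ g ∈ E, g • w ∉ σ.S) :
    ∃ τ : Dom T F E v₀, σ.le τ ∧ w ∈ τ.S := by
  have SE : gen G σ.S ≤ E := gen_le.2 fun v _ => hE v
  let Q : V → V → Prop := fun p q => T.Adj p q ∧ (∀ g ∈ E, g • w ≠ p) ∧ ∀ g ∈ E, g • w ≠ q
  have Qs : ∀ p q, ReflTransGen Q p q → ReflTransGen Q q p := fun p q k =>
    rsymm k fun _ _ m => ⟨m.1.symm, m.2.2, m.2.1⟩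
  have Qm : ∀ e ∈ E, ∀ p q, ReflTransGen Q p q → ReflTransGen Q (e • p) (e • q) :=
    fun e he p q k => k.lift (e • ·) fun a b m => ⟨A.act e _ _ m.1, fun g hg k =>
      m.2.1 _ (mul_mem (inv_mem he) hg) (by rw [mul_smul, k, inv_smul_smul]), fun g hg k =>
      m.2.2 _ (mul_mem (inv_mem he) hg) (by rw [mul_smul, k, inv_smul_smul])⟩
  have Q0 : ∀ u ∈ σ.S, ReflTransGen Q v₀ u := fun u hu => rmono (σ.con u hu) fun p q m =>
    ⟨m.1, fun g hg k => n g hg (k ▸ m.2.1), fun g hg k => n g hg (k ▸ m.2.2)⟩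
  have Q1 : ∀ g ∈ gen G σ.S, ReflTransGen Q v (g • v) := by
    let K : Subgroup G := ⟨⟨⟨{g | g ∈ E ∧ ReflTransGen Q v (g • v)}, fun {a b} ha hb =>
      ⟨mul_mem ha.1 hb.1, ha.2.trans (by rw [mul_smul]; exact Qm a ha.1 _ _ hb.2)⟩⟩, one_mem _, by
      rw [one_smul]⟩, fun {a} ha => ⟨inv_mem ha.1, Qs _ _ (by
        simpa using Qm _ (inv_mem ha.1) _ _ ha.2)⟩⟩
    refine fun g hg => ((gen_le (E := K)).2 (fun u hu g hg => ⟨hE u hg, ?_⟩) hg).2
    have a := (Qs _ _ (Q0 v hv)).trans (Q0 u hu)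
    have b := Qm g (hE u hg) _ _ (Qs _ _ a)
    rw [mem_stabilizer_iff.1 hg] at b
    exact a.trans b
  have Q2 : ∀ e ∈ E, ∀ a p q, ReflTransGen Q p q → side T a (e • w) q → side T a (e • w) p := by
    intro e he a p q k
    induction k with
    | refl => exact id
    | tail _ m ih =>
      refine fun k => ih ((side_adj m.1 fun e' => ?_).2 k)
      rcases Sym2.eq_iff.1 e' with ⟨-, k⟩ | ⟨k, -⟩
      exacts [m.2.2 e he k.symm, m.2.1 e he k.symm]
  have am : Amal (fun b => cond b (gen G σ.S) (stabilizer G w)) (stabilizer G v ⊓ stabilizer G w)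
      fun b => cond b {g | ¬ side T v w (g • w)} {g | side T v w (g • v)} := by
    refine ⟨?_, fun g a b => ?_, ?_⟩
    · rintro (_ | _) c hc k
      · exact side_not A.tree h (by simpa [mem_stabilizer_iff.1 hc.1] using k)
      · exact k (by rw [mem_stabilizer_iff.1 hc.2]; exact .refl)
    · by_cases e : s(g • v, g • w) = s(v, w)
      · rcases Sym2.eq_iff.1 e with ⟨-, k⟩ | ⟨k, k'⟩
        · exact a (by rw [k]; exact .refl)
        · exact A.ninv g v w h k k'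
      · exact a ((side_adj (A.act g _ _ h) e).1 b)
    · rintro (_ | _) g hg m x - k
      · have e : g • w = w := hg
        have k1 := side_smul A.act g ((side_compl A.tree h _).2 k)
        have a := A.act g _ _ h.symm
        rw [e] at k1 a
        change side T v w ((g * x) • v)
        rw [mul_smul]
        by_contra k2
        refine nested a (fun e' => m ?_) (side_not A.tree h.symm) (side_not A.tree a) k1
          ((side_compl A.tree h _).2 k2)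
        rcases Sym2.eq_iff.1 e' with ⟨-, k⟩ | ⟨k, -⟩
        exacts [⟨k, hg⟩, absurd k h.ne']
      · change ¬ side T v w ((g * x) • w)
        rw [mul_smul]
        refine nested (A.act g _ _ h) (fun e' => ?_) (fun k1 => ?_) (fun k1 => ?_)
          (side_smul A.act g (not_not.1 k))
        · rcases Sym2.eq_iff.1 e' with k | k
          exacts [m k, A.ninv g v w h k.1 k.2]
        · have := Q2 1 (one_mem _) v _ _ (Q1 g hg)
          rw [one_smul] at this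
          exact side_not A.tree h (this k1)
        · exact side_not A.tree (A.act g _ _ h) (Q2 g (SE hg) _ _ _ (Qs _ _ (Q1 g hg)) k1)
  obtain ⟨s, α, hs, hα, sα, hk⟩ := A.edge v w h
  obtain ⟨r, hr, ag⟩ := glue_ext (F := fun b => cond b (⋃ u ∈ σ.S, F u) (F w)) am
    (by rintro (_ | _); exacts [A.fam w, A.fam' _])
    (by rintro (_ | _); exacts [hs.2, mem_iUnion₂.2 ⟨v, hv, hs.1⟩]) hα sα hk σ.ord (A.ord w)
  refine ⟨⟨insert w σ.S, r, .inr σ.mem, ?_, ?_, ?_⟩, ⟨subset_insert _ _, ag⟩, .inl rfl⟩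
  · have : ∀ u ∈ σ.S, ReflTransGen (fun p q => T.Adj p q ∧ p ∈ insert w σ.S ∧ q ∈ insert w σ.S)
        v₀ u := fun u hu => rmono (σ.con u hu) fun p q k => ⟨k.1, .inr k.2.1, .inr k.2.2⟩
    rintro u (rfl | hu)
    exacts [(this v hv).tail ⟨h, .inr hv, .inl rfl⟩, this u hu]
  · rintro g hg u (rfl | hu) (k | k)
    · exact k
    · exact absurd k (n g hg)
    · exact absurd (by rwa [← k, inv_smul_smul]) (n _ (inv_mem hg))
    · exact σ.inj g hg u hu k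
  · rw [biUnion_insert, union_comm, gen, iSup_insert, sup_comm]
    exact hr

theorem core (A : Act T F) (hE : ∀ v : V, stabilizer G v ≤ E) :
    (∃ φ : E →* Multiplicative ℤ, (∀ (x : E) (v : V), (x : G) • v = v → φ x = 1) ∧ φ ≠ 1) ∨
      ∃ S r, E = gen G S ∧ Ord (gen G S) (⋃ u ∈ S, F u) r := by
  classical
  obtain ⟨v₀⟩ := A.tree.connected.nonempty
  obtain ⟨o, ho⟩ := A.ord v₀
  have : Nonempty (Dom T F E v₀) := ⟨⟨{v₀}, o, rfl, by rintro _ rfl; exact .refl, by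
    rintro g - _ rfl k; exact k, by simpa [gen] using ho⟩⟩
  obtain ⟨m, hm⟩ := exists_maximal_of_nonempty_chains_bounded (Dom.chain (E := E) (v₀ := v₀) A)
    Dom.le.trans
  have SE : gen G m.S ≤ E := gen_le.2 fun v _ => hE v
  by_cases c : ∀ u ∈ m.S, ∀ y, T.Adj u y → ∃ g ∈ gen G m.S, g • y ∈ m.S
  · refine .inr ⟨m.S, m.r, le_antisymm (fun g hg => ?_) SE, m.ord⟩
    obtain ⟨n, hn, k⟩ := conn A.tree (fun x => ∃ g ∈ gen G m.S, g • x ∈ m.S)
      (fun x y a ⟨n, hn, k⟩ => by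
        obtain ⟨n', hn', k'⟩ := c _ k _ (A.act n _ _ a)
        exact ⟨n' * n, mul_mem hn' hn, by rwa [mul_smul]⟩) ⟨1, one_mem _, by simpa using m.mem⟩
      (g • v₀)
    rw [← mul_smul] at k
    exact (Subgroup.mul_mem_cancel_left _ hn).1
      (le_gen m.mem (m.inj _ (mul_mem (SE hn) hg) _ m.mem k))
  push Not at c
  obtain ⟨u, hu, y, a, n⟩ := c
  obtain ⟨g, hg, k⟩ : ∃ g ∈ E, g • y ∈ m.S := by
    by_contra k
    push Not at k
    obtain ⟨τ, b, b'⟩ := m.step A hE hu a k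
    exact k 1 (one_mem _) (by simpa using (hm τ b).1 b')
  let O : V → V → Prop := fun p q => ∃ e ∈ E, e • u = p ∧ e • y = q
  have Om : ∀ e ∈ E, ∀ p q, O (e • p) (e • q) ↔ O p q := fun e he p q =>
    ⟨fun ⟨x, hx, a, b⟩ => ⟨e⁻¹ * x, mul_mem (inv_mem he) hx, by rw [mul_smul, a, inv_smul_smul],
      by rw [mul_smul, b, inv_smul_smul]⟩, fun ⟨x, hx, a, b⟩ =>
      ⟨e * x, mul_mem he hx, by rw [mul_smul, a], by rw [mul_smul, b]⟩⟩
  obtain ⟨f, hf⟩ := potential A.tree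
    (fun p q => (if O p q then 1 else 0) - if O q p then 1 else 0) fun p q => by ring
  have cst : ∀ e ∈ E, ∀ x, f (e • x) - f x = f (e • v₀) - f v₀ := fun e he =>
    conn A.tree (fun x => f (e • x) - f x = f (e • v₀) - f v₀) (fun p q b ih => by
      have b1 := hf _ _ b
      have b2 := hf _ _ (A.act e _ _ b)
      rw [Om e he, Om e he] at b2
      linarith) rfl
  have O0 : ∀ p ∈ m.S, ∀ q ∈ m.S, ¬ O p q := by
    rintro _ hp _ hq ⟨e, he, rfl, rfl⟩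
    exact n e (le_gen hu (m.inj e he u hu hp)) hq
  have fS : ∀ p ∈ m.S, f p = f v₀ := fun p hp => by
    have := m.con p hp
    clear hp
    induction this with
    | refl => rfl
    | tail _ b ih =>
      have := hf _ _ b.1
      rw [if_neg (O0 _ b.2.1 _ b.2.2), if_neg (O0 _ b.2.2 _ b.2.1)] at this
      linarith
  refine .inl ⟨MonoidHom.mk' (fun x => Multiplicative.ofAdd (f ((x : G) • v₀) - f v₀))
    fun x z => ?_, fun x v e => ?_, fun e => ?_⟩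
  · rw [← ofAdd_add, Subgroup.coe_mul, mul_smul, ← cst x x.2 ((z : G) • v₀)]
    congr 1
    ring
  · change Multiplicative.ofAdd _ = 1
    rw [← cst x x.2 v, e, sub_self, ofAdd_zero]
  · have e1 : f (g • v₀) - f v₀ = 0 := congrArg Multiplicative.toAdd (DFunLike.congr_fun e ⟨g, hg⟩)
    have e2 := hf _ _ a
    rw [if_pos ⟨1, one_mem _, one_smul _ _, one_smul _ _⟩,
      if_neg fun ⟨e, _, b, b'⟩ => A.ninv e u y a b b'] at e2
    rw [← cst g hg y, fS _ k] at e1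
    rw [fS _ hu] at e2
    omega

/-- TREE: the group is left-orderable -/
theorem Act.lo (A : Act T F) :
    ∃ r : G → G → Prop, IsStrictTotalOrder G r ∧ ∀ a b c, r a b ↔ r (c * a) (c * b) := by
  obtain ⟨P, hP⟩ := Cy.relBH ⊤ (gen G (univ : Set V)) fun D _ ⟨x, hx, n⟩ => by
    have le : gen G (univ : Set V) ≤ Subgroup.closure (((gen G (univ : Set V)) : Set G) ∪ D) :=
      fun g hg => Subgroup.subset_closure (.inl hg)
    rcases core A fun v => (le_gen (mem_univ v)).trans le with ⟨φ, k, k'⟩ | ⟨S, r, e, -⟩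
    · refine ⟨φ, fun y hy => ?_, k'⟩
      obtain ⟨z, hz, e⟩ := (gen_le (E := φ.ker.map (Subgroup.subtype _))).2
        (fun v hv g hg => ⟨⟨g, le (le_gen hv hg)⟩, k _ v hg, rfl⟩) hy
      exact Subtype.ext e ▸ hz
    · exact absurd (gen_mono (subset_univ S) (e ▸ Subgroup.subset_closure (.inr hx))) n
  obtain ⟨r, l, i⟩ : ∃ r, Lin (gen G (univ : Set V)) r ∧
      Inv (gen G (univ : Set V)) (gen G (univ : Set V)) r := by
    rcases core A fun v => le_gen (mem_univ v) with ⟨φ, k, k'⟩ | ⟨S, r, e, h⟩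
    · refine absurd (MonoidHom.ext fun y => ?_) k'
      obtain ⟨z, hz, e⟩ := (gen_le (E := φ.ker.map (Subgroup.subtype _))).2
        (fun v hv g hg => ⟨⟨g, le_gen hv hg⟩, k _ v hg, rfl⟩) y.2
      exact Subtype.ext e ▸ hz
    · exact ⟨r, e ▸ h.1, e ▸ h.2.1⟩
  set N := gen G (univ : Set V)
  have neg : ∀ g ∈ N, r g 1 → r 1 g⁻¹ := fun g hg a => by
    simpa using i _ (inv_mem hg) g hg 1 N.one_mem a
  refine ⟨fun a b => a⁻¹ * b ∈ P ∨ (a⁻¹ * b ∈ N ∧ r 1 (a⁻¹ * b)),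
    { trichotomous := fun a b h1 h2 => ?_, irrefl := fun a => ?_, trans := ?_ }, fun a b c => by
      simp only [mul_inv_rev, mul_assoc, inv_mul_cancel_left]⟩
  · by_contra n
    by_cases m : a⁻¹ * b ∈ N
    · rcases l.tot 1 N.one_mem _ m fun e => n (inv_mul_eq_one.1 e.symm) with k | k
      · exact h1 (.inr ⟨m, k⟩)
      · exact h2 (.inr ⟨by simpa using inv_mem m, by simpa using neg _ m k⟩)
    · exact (hP.tot _ trivial m).elim (fun k => h1 (.inl k)) fun k => h2 (.inl (by simpa using k))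
  · rw [inv_mul_cancel]
    exact fun k => k.elim (fun k => hP.notK _ k N.one_mem) fun k => l.irr 1 N.one_mem k.2
  · intro a b c h1 h2
    have e : a⁻¹ * c = a⁻¹ * b * (b⁻¹ * c) := by group
    rw [e]
    rcases h1 with h1 | h1 <;> rcases h2 with h2 | h2
    · exact .inl (hP.mul _ h1 _ h2)
    · exact .inl (hP.right _ h2.1 _ h1)
    · exact .inl (hP.left _ h1.1 _ h2)
    · refine .inr ⟨mul_mem h1.1 h2.1, l.trans 1 N.one_mem _ h1.1 _ (mul_mem h1.1 h2.1) h1.2 ?_⟩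
      simpa using i _ h1.1 1 N.one_mem _ h2.1 h2.2

end Pool.Agent.Work.MP_3d425c_gt.Gl
end
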