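import Pool.Agent.Work.MP_3d425c_gt.Gl.Tree

/-! Constructions of orders that detect slopes. -/

namespace Pool.Agent.Work.MP_3d425c_gt.Gl
open Set MulAction

variable {G : Type*} [Group G] {A K P : Subgroup G} {F : Set (Subgroup G × (G → ℝ))}
  {r t : G → G → Prop} {s : G → ℝ}

theorem Det.of_sign {Y : Set G} (l : Lin Y r) (c : Cl P Y)
    (h : ∀ x ∈ Y, (∀ p ∈ P, 0 < s p → r x (p * x)) ∨ ∀ p ∈ P, 0 < s p → r (p * x) x) :
    Det P s Y r := fun x hx p hp q hq sp sq a =>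
  (h x hx).elim (fun k => k q hq sq) fun k => absurd (k p hp sp) (l.asymm hx (c p hp x hx) a)

theorem Det.conj (d : Det P s A r) (PA : P ≤ A) (i : Inv A A r) {g : G} (hg : g ∈ A)
    {P' : Subgroup G} {s' : G → ℝ} (h : ∀ p ∈ P', g⁻¹ * p * g ∈ P ∧ (0 < s' p → 0 < s (g⁻¹ * p * g))) :
    Det P' s' A r := fun x hx p hp q hq sp sq a => by
  have g' := A.inv_mem hg
  have m : ∀ p ∈ P', p * x ∈ A := fun p hp => by
    have := A.mul_mem hg (A.mul_mem (PA (h p hp).1) (A.mul_mem g' hx))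
    simpa [mul_assoc] using this
  have := d _ (A.mul_mem g' hx) _ (h p hp).1 _ (h q hq).1 ((h p hp).2 sp) ((h q hq).2 sq)
    (by simpa [mul_assoc] using i _ g' _ hx _ (m p hp) a)
  simpa [mul_assoc] using i _ hg _ (A.mul_mem g' hx) _
    (A.mul_mem (PA (h q hq).1) (A.mul_mem g' hx)) this

/-- an invariant strict order `lt` on the cosets of `K` and a left order on `K` -/
theorem ord_of_quot (lt : G → G → Prop) (hF : ∀ f ∈ F, f.1 ≤ A)
    (irr : ∀ a ∈ A, ∀ b ∈ A, a⁻¹ * b ∈ K → ¬ lt a b)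
    (tr : ∀ a ∈ A, ∀ b ∈ A, ∀ c ∈ A, lt a b → lt b c → lt a c)
    (tot : ∀ a ∈ A, ∀ b ∈ A, a⁻¹ * b ∉ K → lt a b ∨ lt b a) (inv : Inv A A lt)
    (l : Lin K t) (i : Inv K K t)
    (d : ∀ f ∈ F, ∀ x ∈ A, (∀ p ∈ f.1, 0 < f.2 p → lt x (p * x)) ∨
      (∀ p ∈ f.1, 0 < f.2 p → lt (p * x) x) ∨
      (∀ p ∈ f.1, 0 < f.2 p → x⁻¹ * p * x ∈ K ∧ t 1 (x⁻¹ * p * x)) ∨
      ∀ p ∈ f.1, 0 < f.2 p → x⁻¹ * p * x ∈ K ∧ t (x⁻¹ * p * x) 1) :
    ∃ r, Ord A F r := by
  have neg : ∀ g ∈ K, t g 1 → t 1 g⁻¹ := fun g hg a => by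
    simpa using i _ (inv_mem hg) g hg 1 K.one_mem a
  have sw : ∀ a b : G, a⁻¹ * b ∈ K → b⁻¹ * a ∈ K := fun a b k => by simpa using inv_mem k
  have cl : ∀ a ∈ A, ∀ b ∈ A, ∀ c ∈ A, a⁻¹ * b ∈ K → (lt b c → lt a c) ∧ (lt c b → lt c a) := by
    intro a ha b hb c hc k
    have n : lt b c ∨ lt c b → a⁻¹ * c ∉ K := fun m k' => by
      have : b⁻¹ * c ∈ K := by simpa [mul_assoc] using mul_mem (sw _ _ k) k'
      exact m.elim (irr b hb c hc this) (irr c hc b hb (sw _ _ this))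
    exact ⟨fun m => (tot a ha c hc (n (.inl m))).resolve_right fun m' =>
        irr b hb a ha (sw _ _ k) (tr b hb c hc a ha m m'),
      fun m => (tot a ha c hc (n (.inr m))).resolve_left fun m' =>
        irr a ha b hb k (tr a ha c hc b hb m' m)⟩
  have L : Lin A fun a b => lt a b ∨ (a⁻¹ * b ∈ K ∧ t 1 (a⁻¹ * b)) := by
    refine ⟨fun a ha k => k.elim (irr a ha a ha (by simp)) fun k =>
      l.irr 1 K.one_mem (by simpa using k.2), ?_, fun a ha b hb n => ?_⟩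
    · rintro a ha b hb c hc (h1 | h1) (h2 | h2)
      · exact .inl (tr a ha b hb c hc h1 h2)
      · exact .inl ((cl c hc b hb a ha (sw _ _ h2.1)).2 h1)
      · exact .inl ((cl a ha b hb c hc h1.1).1 h2)
      · have e : a⁻¹ * c = a⁻¹ * b * (b⁻¹ * c) := by group
        rw [e]
        refine .inr ⟨mul_mem h1.1 h2.1, l.trans 1 K.one_mem _ h1.1 _ (mul_mem h1.1 h2.1) h1.2 ?_⟩
        simpa using i _ h1.1 1 K.one_mem _ h2.1 h2.2
    · by_cases m : a⁻¹ * b ∈ K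
      · exact (l.tot 1 K.one_mem _ m fun e => n (inv_mul_eq_one.1 e.symm)).imp
          (fun k => .inr ⟨m, k⟩) fun k => .inr ⟨sw _ _ m, by simpa using neg _ m k⟩
      · exact (tot a ha b hb m).imp .inl .inl
  refine ⟨_, L, fun g hg a ha b hb k => k.imp (inv g hg a ha b hb) fun k => by
    simpa [mul_assoc] using k, fun f hf => Det.of_sign L ((Cl.self A).mono (hF f hf)) fun x hx => ?_⟩
  rcases d f hf x hx with k | k | k | k
  · exact .inl fun p hp sp => .inl (k p hp sp)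
  · exact .inr fun p hp sp => .inl (k p hp sp)
  · exact .inl fun p hp sp => .inr (by simpa [mul_assoc] using k p hp sp)
  · refine .inr fun p hp sp => .inr ?_
    have := k p hp sp
    exact ⟨by simpa [mul_assoc] using inv_mem this.1, by simpa [mul_assoc] using neg _ this.1 this.2⟩

/-- an action on an ordered set -/
theorem ord_of_action {X : Type*} [MulAction G X] (lt : X → X → Prop) (y : X)
    (hF : ∀ f ∈ F, f.1 ≤ A) (irr : ∀ a ∈ A, ¬ lt (a • y) (a • y))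
    (tr : ∀ a ∈ A, ∀ b ∈ A, ∀ c ∈ A, lt (a • y) (b • y) → lt (b • y) (c • y) → lt (a • y) (c • y))
    (tot : ∀ a ∈ A, ∀ b ∈ A, a • y ≠ b • y → lt (a • y) (b • y) ∨ lt (b • y) (a • y))
    (inv : ∀ g ∈ A, ∀ a ∈ A, ∀ b ∈ A, lt (a • y) (b • y) → lt (g • a • y) (g • b • y))
    (l : Lin (A ⊓ stabilizer G y : Subgroup G) t)
    (i : Inv (A ⊓ stabilizer G y) (A ⊓ stabilizer G y : Subgroup G) t)
    (d : ∀ f ∈ F, ∀ x ∈ A, (∀ p ∈ f.1, 0 < f.2 p → lt (x • y) (p • x • y)) ∨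
      ∀ p ∈ f.1, 0 < f.2 p → lt (p • x • y) (x • y)) : ∃ r, Ord A F r := by
  have e : ∀ a b : G, a⁻¹ * b ∈ stabilizer G y ↔ a • y = b • y := fun a b => by
    rw [mem_stabilizer_iff, mul_smul, inv_smul_eq_iff, eq_comm]
  refine ord_of_quot (K := A ⊓ stabilizer G y) (fun a b => lt (a • y) (b • y)) hF (fun a ha b hb k => ?_) tr
    (fun a ha b hb k => tot a ha b hb fun m => k ⟨A.mul_mem (A.inv_mem ha) hb, (e a b).2 m⟩)
    (fun g hg a ha b hb k => by simpa only [mul_smul] using inv g hg a ha b hb k) l i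
    fun f hf x hx => (d f hf x hx).imp (by simpa only [mul_smul] using id)
      fun k => .inl (by simpa only [mul_smul] using k)
  rw [(e a b).1 k.2]
  exact irr b hb

/-- a character with values in an ordered abelian group; `K` is its kernel -/
theorem ord_of_hom {Λ : Type*} [AddCommGroup Λ] [LinearOrder Λ] [IsOrderedAddMonoid Λ] (φ : G → Λ)
    (add : ∀ a ∈ A, ∀ b ∈ A, φ (a * b) = φ a + φ b) (hK : ∀ a, a ∈ K ↔ a ∈ A ∧ φ a = 0)
    (hF : ∀ f ∈ F, f.1 ≤ A) (l : Lin K t) (i : Inv K K t)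
    (d : ∀ f ∈ F, (∀ p ∈ f.1, 0 < f.2 p → 0 < φ p) ∨ ∀ p ∈ f.1, 0 < f.2 p → φ p < 0) :
    ∃ r, Ord A F r := by
  have e : ∀ a ∈ A, ∀ b ∈ A, a⁻¹ * b ∈ K ↔ φ a = φ b := fun a ha b hb => by
    have m := mul_mem (inv_mem ha) hb
    have := add a ha _ m
    rw [mul_inv_cancel_left] at this
    rw [hK, and_iff_right m, this, left_eq_add]
  refine ord_of_quot (fun a b => φ a < φ b) hF
    (fun a ha b hb k => ((e a ha b hb).1 k).not_lt) (fun _ _ _ _ _ _ => lt_trans)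
    (fun a ha b hb k => lt_or_gt_of_ne fun m => k ((e a ha b hb).2 m))
    (fun g hg a ha b hb k => by
      change φ _ < φ _
      rw [add g hg a ha, add g hg b hb]
      exact add_lt_add_right k _) l i
    fun f hf x hx => (d f hf).imp (fun k p hp sp => ?_) fun k => .inl fun p hp sp => ?_
  · rw [add p (hF f hf hp) x hx]
    exact lt_add_of_pos_left _ (k p hp sp)
  · rw [add p (hF f hf hp) x hx]
    exact add_lt_of_neg_left _ (k p hp sp)

/-- compactness -/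
theorem ord_of_fin
    (h : ∀ D : Finset ((Subgroup G × (G → ℝ)) × G × G), ∃ r, Lin A r ∧ Inv A A r ∧
      ∀ f ∈ F, ∀ p ∈ f.1, ∀ q ∈ f.1, (f, p, q) ∈ D → 0 < f.2 p → 0 < f.2 q →
        ∀ x ∈ A, r x (p * x) → r x (q * x)) : ∃ r, Ord A F r := by
  classical
  choose r l i d using h
  let U := Ultrafilter.of (Filter.atTop (α := Finset ((Subgroup G × (G → ℝ)) × G × G)))
  refine ⟨fun x y => ∀ᶠ D in (U : Filter _), r D x y, ⟨fun x hx k => ?_, fun x hx y hy z hz a b => ?_,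
    fun x hx y hy n => ?_⟩, fun g hg x hx y hy k => ?_, fun f hf x hx p hp q hq sp sq k => ?_⟩
  · obtain ⟨D, k⟩ := k.exists
    exact (l D).irr x hx k
  · filter_upwards [a, b] with D using (l D).trans x hx y hy z hz
  · exact Ultrafilter.eventually_or.1 (.of_forall fun D => (l D).tot x hx y hy n)
  · filter_upwards [k] with D using i D g hg x hx y hy
  · have : ∀ᶠ D in U.toFilter, (f, p, q) ∈ D := by
      apply Ultrafilter.of_le
      filter_upwards [Filter.eventually_ge_atTop {(f, p, q)}] with D hD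
      exact hD (Finset.mem_singleton_self _)
    filter_upwards [k, this] with D a b using d D f hf p hp q hq b sp sq x hx a

omit [Group G] in
theorem lin_of_lo (h : IsStrictTotalOrder G r) (Y : Set G) : Lin Y r :=
  ⟨fun x _ => h.irrefl x, fun x _ y _ z _ => h.trans x y z, fun x _ y _ n => by
    by_contra k
    exact n (h.trichotomous x y (fun a => k (.inl a)) fun a => k (.inr a))⟩

/-- a left order on the subgroup as a type gives one on the subgroup as a set -/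
theorem lin_of_sub (r : A → A → Prop) (h : IsStrictTotalOrder A r)
    (i : ∀ a b c, r a b ↔ r (c * a) (c * b)) : ∃ t, Lin A t ∧ Inv A A t :=
  ⟨fun x y => ∃ hx hy, r ⟨x, hx⟩ ⟨y, hy⟩, ⟨fun _ _ ⟨_, _, k⟩ => h.irrefl _ k,
    fun _ _ _ _ _ _ ⟨a, _, k⟩ ⟨_, b, k'⟩ => ⟨a, b, h.trans _ _ _ k k'⟩, fun x hx y hy n =>
      ((lin_of_lo h univ).tot ⟨x, hx⟩ trivial ⟨y, hy⟩ trivial fun e =>
        n (congrArg Subtype.val e)).imp (fun k => ⟨hx, hy, k⟩) fun k => ⟨hy, hx, k⟩⟩,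
    fun g hg _ _ _ _ ⟨a, b, k⟩ => ⟨mul_mem hg a, mul_mem hg b, (i _ _ ⟨g, hg⟩).1 k⟩⟩

/-- an infinite cyclic or trivial subgroup is ordered -/
theorem lin_of_cyclic {α : G} (hα : α = 1 ∨ ¬ IsOfFinOrder α) (h : ∀ a ∈ A, ∃ n : ℤ, a = α ^ n) :
    ∃ t, Lin A t ∧ Inv A A t := by
  refine ⟨fun x y => ∃ n : ℤ, 0 < n ∧ α ≠ 1 ∧ y = x * α ^ n, ⟨?_, ?_, fun x hx y hy n => ?_⟩, ?_⟩
  · rintro x - ⟨n, hn, a, e⟩
    exact hα.resolve_left a (isOfFinOrder_iff_zpow_eq_one.2 ⟨n, hn.ne', by simpa using e⟩)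
  · rintro x - _ - _ - ⟨n, hn, a, rfl⟩ ⟨m, hm, -, rfl⟩
    exact ⟨n + m, add_pos hn hm, a, by rw [zpow_add, mul_assoc]⟩
  · obtain ⟨i, rfl⟩ := h x hx
    obtain ⟨j, rfl⟩ := h y hy
    have a : α ≠ 1 := fun e => n (by simp [e])
    rcases lt_trichotomy i j with k | rfl | k
    · exact .inl ⟨j - i, by omega, a, by rw [← zpow_add, add_sub_cancel]⟩
    · exact absurd rfl n
    · exact .inr ⟨i - j, by omega, a, by rw [← zpow_add, add_sub_cancel]⟩
  · rintro g - x - _ - ⟨n, hn, a, rfl⟩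
    exact ⟨n, hn, a, (mul_assoc _ _ _).symm⟩

/-- ordered vertex groups and cyclic edge groups -/
theorem lo_of_tree {V : Type*} [MulAction G V] {T : SimpleGraph V} (hT : T.IsTree)
    (act : ∀ (g : G) p q, T.Adj p q → T.Adj (g • p) (g • q))
    (ninv : ∀ (g : G) p q, T.Adj p q → g • p = q → g • q ≠ p)
    (cyc : ∀ v w, T.Adj v w → ∃ α ∈ stabilizer G v ⊓ stabilizer G w,
      ∀ c ∈ stabilizer G v ⊓ stabilizer G w, ∃ n : ℤ, c = α ^ n)
    (ord : ∀ v : V, ∃ t, Lin (stabilizer G v) t ∧ Inv (stabilizer G v) (stabilizer G v) t) :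
    ∃ r : G → G → Prop, IsStrictTotalOrder G r ∧ ∀ a b c, r a b ↔ r (c * a) (c * b) := by
  refine Act.lo (T := T) (F := fun v => {f | f.2 = 0 ∧ f.1 ≤ stabilizer G v ∧ Sl f.1 f.2})
    ⟨hT, act, ninv, fun v f hf => hf.2, fun v w h => ?_, fun v => ?_⟩
  · obtain ⟨α, hα, k⟩ := cyc v w h
    have S : Sl (stabilizer G v ⊓ stabilizer G w) 0 := ⟨fun p hp q hq => by
      obtain ⟨i, rfl⟩ := k p hp
      obtain ⟨j, rfl⟩ := k q hq
      exact zpow_mul_comm _ _ _, fun _ _ _ _ => by simp⟩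
    exact ⟨0, α, ⟨⟨rfl, inf_le_left, S⟩, rfl, inf_le_right, S⟩, hα, rfl, fun c hc _ => k c hc⟩
  · obtain ⟨t, l, i⟩ := ord v
    exact ⟨t, l, i, fun f hf x _ p _ q _ sp => absurd sp (by simp [hf.1])⟩

end Pool.Agent.Work.MP_3d425c_gt.Gl
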